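import Pool.Agent.helper27.UF.Final

/-!
# Upper bounds for `U₂(n, 3k+1)` and `U₂(n, 3k+2)`
-/

set_option autoImplicit false

namespace Pool.Agent.helper30.UF

open Finset Pool.Agent.helper27.UF

/-- `U₂(n, 3k+1) C(3k+1, 2k+1) ≤ C(n, 2k+1) + O(n^{2k})`. -/
theorem upper_one (n k : ℕ) : U2 n (3 * k + 1) * (3 * k + 1).choose (2 * k + 1) ≤
    n.choose (2 * k + 1) +
      (3 * k + 1).choose (2 * k + 1) * ((k + 1) * (n + 1) ^ k) ^ 2 := by
  classical
  obtain ⟨H, h1, h2, h3⟩ := exists_extremal n (3 * k + 1)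
  rw [← h3]
  set P : Finset (Fin n) → Prop := fun A => ∃ B ∈ H, B ≠ A ∧ 2 * k + 1 ≤ (A ∩ B).card with hP
  have hg : ∀ A : Finset (Fin n), ∃ B : Finset (Fin n), P A →
      B ∈ H ∧ B ≠ A ∧ 2 * k + 1 ≤ (A ∩ B).card := by
    intro A
    by_cases hA : P A
    · obtain ⟨B, hB⟩ := hA
      exact ⟨B, fun _ => hB⟩
    · exact ⟨∅, fun h => absurd h hA⟩
  choose g hg using hg
  have hsplit : H.card = (H.filter P).card + (H.filter (fun A => ¬ P A)).card := by
    rw [Finset.card_filter_add_card_filter_not]
  have hc1 : (H.filter P).card ≤ ((k + 1) * (n + 1) ^ k) ^ 2 := by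
    set Sm := (univ : Finset (Finset (Fin n))).filter (fun X => X.card ≤ k) with hSm
    have hsmall : ∀ A ∈ H, ∀ B ∈ H, 2 * k + 1 ≤ (A ∩ B).card → (A \ B).card ≤ k := by
      intro A hA B hB hAB
      have h6 : (A \ B).card + (A ∩ B).card = A.card := Finset.card_sdiff_add_card_inter A B
      rw [h1 A hA] at h6
      omega
    have : (H.filter P).card ≤ (Sm ×ˢ Sm).card := by
      refine Finset.card_le_card_of_injOn (fun A => (A \ g A, g A \ A)) ?_ ?_
      · intro A hA
        obtain ⟨hA', hPA⟩ := mem_filter.mp hA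
        obtain ⟨hB, -, hB2⟩ := hg A hPA
        rw [mem_coe, mem_product, hSm, mem_filter, mem_filter]
        exact ⟨⟨mem_univ _, hsmall A hA' _ hB hB2⟩,
          ⟨mem_univ _, hsmall _ hB A hA' (by rw [inter_comm]; exact hB2)⟩⟩
      · intro A hA A' hA' heq
        obtain ⟨hAH, hPA⟩ := mem_filter.mp (mem_coe.mp hA)
        obtain ⟨hAH', hPA'⟩ := mem_filter.mp (mem_coe.mp hA')
        obtain ⟨hB, hBn, -⟩ := hg A hPA
        obtain ⟨hB', -, -⟩ := hg A' hPA'
        obtain ⟨e1, e2⟩ := Prod.mk.inj (show (A \ g A, g A \ A) = (A' \ g A', g A' \ A') from heq)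
        have hU : A ∪ g A' = g A ∪ A' := by
          ext x
          have e1x : (x ∈ A \ g A) ↔ (x ∈ A' \ g A') := by rw [e1]
          have e2x : (x ∈ g A \ A) ↔ (x ∈ g A' \ A') := by rw [e2]
          rw [Finset.mem_sdiff, Finset.mem_sdiff] at e1x e2x
          rw [Finset.mem_union, Finset.mem_union]
          tauto
        rcases h2 A hAH _ hB' _ hB A' hAH' hU with ⟨h, _⟩ | ⟨h, _⟩
        · exact absurd h.symm hBn
        · exact h
    refine this.trans ?_
    rw [card_product, ← pow_two]
    exact Nat.pow_le_pow_left (card_small n k) 2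
  have hc2 : (H.filter (fun A => ¬ P A)).card * (3 * k + 1).choose (2 * k + 1) ≤
      n.choose (2 * k + 1) := by
    have hdis : ((H.filter (fun A => ¬ P A)).biUnion (fun A => powersetCard (2 * k + 1) A)).card =
        ∑ A ∈ H.filter (fun A => ¬ P A), (powersetCard (2 * k + 1) A).card := by
      refine Finset.card_biUnion ?_
      intro A hA B hB hAB
      obtain ⟨hAH, hPA⟩ := mem_filter.mp hA
      obtain ⟨hBH, hPB⟩ := mem_filter.mp hB
      change Disjoint (powersetCard (2 * k + 1) A) (powersetCard (2 * k + 1) B)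
      rw [Finset.disjoint_left]
      intro T hT hT'
      obtain ⟨t1, t2⟩ := mem_powersetCard.mp hT
      obtain ⟨t3, t4⟩ := mem_powersetCard.mp hT'
      apply hPA
      refine ⟨B, hBH, Ne.symm hAB, ?_⟩
      rw [← t2]
      exact Finset.card_le_card (subset_inter t1 t3)
    have hsum : ∑ A ∈ H.filter (fun A => ¬ P A), (powersetCard (2 * k + 1) A).card =
        (H.filter (fun A => ¬ P A)).card * (3 * k + 1).choose (2 * k + 1) := by
      rw [Finset.sum_congr rfl (fun A hA => by
        rw [card_powersetCard, h1 A (mem_filter.mp hA).1]), sum_const, smul_eq_mul]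
    rw [← hsum, ← hdis]
    calc _ ≤ (powersetCard (2 * k + 1) (univ : Finset (Fin n))).card := by
          refine Finset.card_le_card ?_
          intro T hT
          obtain ⟨A, -, hA⟩ := mem_biUnion.mp hT
          exact mem_powersetCard.mpr ⟨subset_univ _, (mem_powersetCard.mp hA).2⟩
      _ = n.choose (2 * k + 1) := by rw [card_powersetCard, card_univ, Fintype.card_fin]
  rw [hsplit, add_mul]
  calc _ ≤ ((k + 1) * (n + 1) ^ k) ^ 2 * (3 * k + 1).choose (2 * k + 1) +
        n.choose (2 * k + 1) := Nat.add_le_add (Nat.mul_le_mul_right _ hc1) hc2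
    _ = _ := by ring

/-- Cauchy–Schwarz count for `r = 3k+2`. -/
theorem upper_two (n k : ℕ) :
    (U2 n (3 * k + 2) * (3 * k + 2).choose (k + 1)) ^ 2 ≤
      n.choose (2 * k + 1) * (n.choose (k + 1) ^ 2 +
        U2 n (3 * k + 2) * (3 * k + 2).choose (k + 1)) := by
  classical
  obtain ⟨H, h1, h2, h3⟩ := exists_extremal n (3 * k + 2)
  rw [← h3]
  have hch : (3 * k + 2).choose (k + 1) = (3 * k + 2).choose (2 * k + 1) := by
    rw [← Nat.choose_symm (show 2 * k + 1 ≤ 3 * k + 2 by omega)]
    congr 1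
    omega
  rw [hch]
  set T := powersetCard (2 * k + 1) (univ : Finset (Fin n)) with hT
  set d : Finset (Fin n) → ℕ := fun t => (H.filter (fun A => t ⊆ A)).card with hd
  have hTc : T.card = n.choose (2 * k + 1) := by
    rw [hT, card_powersetCard, card_univ, Fintype.card_fin]
  have hsum : ∑ t ∈ T, d t = H.card * (3 * k + 2).choose (2 * k + 1) := by
    simp only [hd, Finset.card_filter]
    rw [Finset.sum_comm]
    have : ∀ A ∈ H, ∑ t ∈ T, (if t ⊆ A then 1 else 0) = (3 * k + 2).choose (2 * k + 1) := by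
      intro A hA
      rw [← Finset.card_filter]
      have : T.filter (fun t => t ⊆ A) = powersetCard (2 * k + 1) A := by
        ext t
        rw [mem_filter, hT, mem_powersetCard, mem_powersetCard]
        constructor
        · rintro ⟨⟨_, a⟩, b⟩; exact ⟨b, a⟩
        · rintro ⟨a, b⟩; exact ⟨⟨subset_univ _, b⟩, a⟩
      rw [this, card_powersetCard, h1 A hA]
    rw [Finset.sum_congr rfl this, sum_const, smul_eq_mul]
  have hsq : ∑ t ∈ T, d t ^ 2 ≤ n.choose (k + 1) ^ 2 + ∑ t ∈ T, d t := by
    -- ordered pairs of distinct edges through t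
    set E : Finset (Σ _ : Finset (Fin n), Finset (Fin n) × Finset (Fin n)) :=
      T.sigma (fun t => ((H.filter (fun A => t ⊆ A)) ×ˢ (H.filter (fun A => t ⊆ A))).filter
        (fun c => c.1 ≠ c.2)) with hE
    have hE1 : E.card = ∑ t ∈ T, (d t ^ 2 - d t) := by
      rw [hE, card_sigma]
      refine Finset.sum_congr rfl fun t _ => ?_
      have e1 : (((H.filter (fun A => t ⊆ A)) ×ˢ (H.filter (fun A => t ⊆ A))).filter
        (fun c => c.1 ≠ c.2)) = (H.filter (fun A => t ⊆ A)).offDiag := by
        ext c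
        simp only [mem_filter, mem_product, mem_offDiag]
        tauto
      rw [e1, offDiag_card, hd, pow_two]
    have hE2 : E.card ≤ n.choose (k + 1) ^ 2 := by
      have hX : (powersetCard (k + 1) (univ : Finset (Fin n)) ×ˢ
          powersetCard (k + 1) (univ : Finset (Fin n))).card = n.choose (k + 1) ^ 2 := by
        rw [card_product, card_powersetCard, card_univ, Fintype.card_fin, pow_two]
      rw [← hX]
      refine Finset.card_le_card_of_injOn (fun c => (c.2.1 \ c.1, c.2.2 \ c.1)) ?_ ?_
      · rintro ⟨t, A, B⟩ hc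
        rw [mem_coe, hE, mem_sigma, mem_filter, mem_product, mem_filter, mem_filter] at hc
        obtain ⟨ht, ⟨⟨hA, tA⟩, ⟨hB, tB⟩⟩, hne⟩ := hc
        have htc := (mem_powersetCard.mp ht).2
        simp only at hA tA hB tB htc
        rw [mem_coe, mem_product, mem_powersetCard, mem_powersetCard]
        refine ⟨⟨subset_univ _, ?_⟩, ⟨subset_univ _, ?_⟩⟩
        · simp only
          rw [Finset.card_sdiff_of_subset tA, h1 A hA, htc]; omega
        · simp only
          rw [Finset.card_sdiff_of_subset tB, h1 B hB, htc]; omega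
      · rintro ⟨t, A, B⟩ hc ⟨s, A', B'⟩ hc' heq
        rw [mem_coe, hE, mem_sigma, mem_filter, mem_product, mem_filter, mem_filter] at hc hc'
        obtain ⟨ht, ⟨⟨hA, tA⟩, ⟨hB, tB⟩⟩, hne⟩ := hc
        obtain ⟨hs, ⟨⟨hA', sA'⟩, ⟨hB', sB'⟩⟩, hne'⟩ := hc'
        simp only at hA tA hB tB hA' sA' hB' sB' hne hne'
        obtain ⟨e1, e2⟩ := Prod.mk.inj (show (A \ t, B \ t) = (A' \ s, B' \ s) from heq)
        have hU : A ∪ B' = B ∪ A' := by
          have q1 : A = A \ t ∪ t := (sdiff_union_of_subset tA).symm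
          have q2 : B = B \ t ∪ t := (sdiff_union_of_subset tB).symm
          have q3 : A' = A \ t ∪ s := by rw [e1]; exact (sdiff_union_of_subset sA').symm
          have q4 : B' = B \ t ∪ s := by rw [e2]; exact (sdiff_union_of_subset sB').symm
          rw [q3, q4]
          generalize A \ t = X at q1
          generalize B \ t = Y at q2
          rw [q1, q2]
          clear q1 q2
          ext x
          simp only [Finset.mem_union]
          constructor
          · rintro ((h | h) | (h | h)) <;> simp [h]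
          · rintro ((h | h) | (h | h)) <;> simp [h]
        rcases h2 A hA B' hB' B hB A' hA' hU with ⟨h, _⟩ | ⟨h, h'⟩
        · exact absurd h hne
        · subst h
          subst h'
          have : t = s := by
            have a1 : A \ (A \ t) = t := Finset.sdiff_sdiff_eq_self tA
            have a2 : A \ (A \ s) = s := Finset.sdiff_sdiff_eq_self sA'
            rw [← a1, ← a2, e1]
          subst this
          rfl
    have hle : ∀ t ∈ T, d t ^ 2 = (d t ^ 2 - d t) + d t := by
      intro t _
      have : d t ≤ d t ^ 2 := by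
        rw [pow_two]; exact Nat.le_mul_self _
      omega
    rw [Finset.sum_congr rfl hle, Finset.sum_add_distrib, ← hE1]
    exact Nat.add_le_add_right hE2 _
  have hcs : (∑ t ∈ T, d t) ^ 2 ≤ T.card * ∑ t ∈ T, d t ^ 2 := sq_sum_le_card_mul_sum_sq
  rw [hsum] at hcs hsq
  rw [hTc] at hcs
  exact hcs.trans (Nat.mul_le_mul_left _ hsq)

end Pool.Agent.helper30.UF
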