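import Pool.Agent.helper30.UF.Count
import Pool.Agent.helper30.UF.Upper

/-!
# Asymptotic form of the lower bound
-/

set_option autoImplicit false

namespace Pool.Agent.helper30.UF

open Finset Pool.Agent.helper27.UF Filter Topology

theorem small_eventually (m : ℕ) : ∀ᶠ n : ℕ in atTop,
    ((Small (Fin n) m).card : ℝ) ≤ 2 * (n : ℝ) ^ m / (m.factorial : ℝ) := by
  rcases Nat.eq_zero_or_pos m with hm | hm
  · subst hm
    refine Filter.Eventually.of_forall fun n => ?_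
    have := card_small n 0
    have h : ((Small (Fin n) 0).card : ℝ) ≤ 1 := by
      have h' : (Small (Fin n) 0).card ≤ 1 := by simpa [Small] using this
      exact_mod_cast h'
    simp only [pow_zero, Nat.factorial_zero, Nat.cast_one]
    linarith
  · obtain ⟨l, rfl⟩ : ∃ l, m = l + 1 := ⟨m - 1, by omega⟩
    refine (eventually_ge_atTop (max 1 ((l + 1) * 2 ^ l * (l + 1).factorial))).mono fun n hn => ?_
    have hn1 : 1 ≤ n := le_trans (le_max_left _ _) hn
    have hn2 : (l + 1) * 2 ^ l * (l + 1).factorial ≤ n := le_trans (le_max_right _ _) hn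
    have h1 : (Small (Fin n) (l + 1)).card ≤ n.choose (l + 1) + (l + 1) * (n + 1) ^ l := by
      have hsub : Small (Fin n) (l + 1) ⊆ powersetCard (l + 1) (univ : Finset (Fin n)) ∪
          (univ : Finset (Finset (Fin n))).filter (fun X => X.card ≤ l) := by
        intro X hX
        have h := (mem_filter.mp hX).2
        rw [mem_union, mem_powersetCard, mem_filter]
        rcases Nat.lt_or_ge X.card (l + 1) with h' | h'
        · exact Or.inr ⟨mem_univ _, by omega⟩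
        · exact Or.inl ⟨subset_univ _, by omega⟩
      refine (Finset.card_le_card hsub).trans ((Finset.card_union_le _ _).trans ?_)
      rw [card_powersetCard, card_univ, Fintype.card_fin]
      exact Nat.add_le_add_left (card_small n l) _
    have hfac : (0 : ℝ) < ((l + 1).factorial : ℝ) := by exact_mod_cast Nat.factorial_pos _
    have hnR : (1 : ℝ) ≤ (n : ℝ) := by exact_mod_cast hn1
    have h2 : ((n.choose (l + 1) : ℕ) : ℝ) ≤ (n : ℝ) ^ (l + 1) / ((l + 1).factorial : ℝ) := by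
      have := Nat.choose_le_pow_div (α := ℝ) (l + 1) n
      simpa using this
    have h3 : (((l + 1) * (n + 1) ^ l : ℕ) : ℝ) ≤
        (n : ℝ) ^ (l + 1) / ((l + 1).factorial : ℝ) := by
      rw [le_div_iff₀ hfac]
      push_cast
      have h4 : ((n : ℝ) + 1) ^ l ≤ (2 * (n : ℝ)) ^ l := by
        apply pow_le_pow_left₀ (by positivity); linarith
      have h5 : (((l : ℝ) + 1) * 2 ^ l * ((l + 1).factorial : ℝ)) ≤ (n : ℝ) := by
        exact_mod_cast hn2
      calc ((l : ℝ) + 1) * ((n : ℝ) + 1) ^ l * ((l + 1).factorial : ℝ)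
          ≤ ((l : ℝ) + 1) * (2 * (n : ℝ)) ^ l * ((l + 1).factorial : ℝ) := by gcongr
        _ = (((l : ℝ) + 1) * 2 ^ l * ((l + 1).factorial : ℝ)) * (n : ℝ) ^ l := by
            rw [mul_pow]; ring
        _ ≤ (n : ℝ) * (n : ℝ) ^ l := by gcongr
        _ = (n : ℝ) ^ (l + 1) := by ring
    calc ((Small (Fin n) (l + 1)).card : ℝ) ≤
          ((n.choose (l + 1) + (l + 1) * (n + 1) ^ l : ℕ) : ℝ) := by exact_mod_cast h1
      _ = ((n.choose (l + 1) : ℕ) : ℝ) + (((l + 1) * (n + 1) ^ l : ℕ) : ℝ) := by push_cast; ring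
      _ ≤ _ := by
          rw [mul_div_assoc, two_mul]
          exact add_le_add h2 h3

/-- One step: choose a prime a little larger than `X`. -/
theorem step (n r t : ℕ) (hr : 1 ≤ r) (X : ℝ) (hX : 4 ≤ X)
    (hb : ((2 : ℝ) ^ r + 4 ^ r) * ((Small (Fin n) t).card : ℝ) * X +
      2 ^ r * ((Small (Fin n) (r - t - 1)).card : ℝ) * X ^ 2 +
      32 ^ r * ((Small (Fin n) (r - 1)).card : ℝ) ≤ X ^ 3 / 2) :
    (n.choose r : ℝ) ≤ 4 * (X + 1) * (U2 n r : ℝ) := by
  set M := ⌈X⌉₊ with hM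
  have hX0 : 0 < X := by linarith
  have hMX : X ≤ (M : ℝ) := Nat.le_ceil X
  have hMX' : (M : ℝ) < X + 1 := Nat.ceil_lt_add_one hX0.le
  have hM4 : 4 ≤ M := by
    have : (4 : ℝ) ≤ (M : ℝ) := hX.trans hMX
    exact_mod_cast this
  obtain ⟨p, hp, hpM, hpM2⟩ := Nat.exists_prime_lt_and_le_two_mul M (by omega)
  haveI : Fact p.Prime := ⟨hp⟩
  have h2 : (2 : ZMod p) ≠ 0 := by
    have : ((2 : ℕ) : ZMod p) ≠ 0 := by
      rw [Ne, ZMod.natCast_eq_zero_iff]
      intro h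
      have := Nat.le_of_dvd (by norm_num) h
      omega
    exact_mod_cast this
  have h3 : (3 : ZMod p) ≠ 0 := by
    have : ((3 : ℕ) : ZMod p) ≠ 0 := by
      rw [Ne, ZMod.natCast_eq_zero_iff]
      intro h
      have := Nat.le_of_dvd (by norm_num) h
      omega
    exact_mod_cast this
  have hbas := basic n r t hr (F := ZMod p) h2 h3
  rw [ZMod.card] at hbas
  set N1 := ((Small (Fin n) t).card : ℝ) with hN1
  set N2 := ((Small (Fin n) (r - t - 1)).card : ℝ) with hN2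
  set N3 := ((Small (Fin n) (r - 1)).card : ℝ) with hN3
  set C := (n.choose r : ℝ) with hC
  set U := (U2 n r : ℝ) with hU
  have hbasR : C * (p : ℝ) ^ 3 ≤ U * (p : ℝ) ^ 4 + C * (((2 : ℝ) ^ r + 4 ^ r) * N1 * p +
      2 ^ r * N2 * (p : ℝ) ^ 2 + 32 ^ r * N3) := by
    rw [hC, hU, hN1, hN2, hN3]
    exact_mod_cast hbas
  have hN1' : 0 ≤ N1 := Nat.cast_nonneg _
  have hN2' : 0 ≤ N2 := Nat.cast_nonneg _
  have hN3' : 0 ≤ N3 := Nat.cast_nonneg _
  have hC' : 0 ≤ C := Nat.cast_nonneg _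
  have hU' : 0 ≤ U := Nat.cast_nonneg _
  have hpX : X ≤ (p : ℝ) := by
    have : (M : ℝ) ≤ (p : ℝ) := by exact_mod_cast hpM.le
    linarith
  have hp0 : (0 : ℝ) < (p : ℝ) := by linarith
  have hp2 : (p : ℝ) ≤ 2 * (X + 1) := by
    have : (p : ℝ) ≤ 2 * (M : ℝ) := by exact_mod_cast hpM2
    linarith
  -- the bracket
  have hbr : ((2 : ℝ) ^ r + 4 ^ r) * N1 * p + 2 ^ r * N2 * (p : ℝ) ^ 2 + 32 ^ r * N3 ≤
      (p : ℝ) ^ 3 / 2 := by
    -- multiply the bound for X by (p/X)^3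
    set a := ((2 : ℝ) ^ r + 4 ^ r) * N1 with ha
    set b := (2 : ℝ) ^ r * N2 with hb'
    set c := (32 : ℝ) ^ r * N3 with hc
    have ha0 : 0 ≤ a := by positivity
    have hb0 : 0 ≤ b := by positivity
    have hc0 : 0 ≤ c := by positivity
    set s := (p : ℝ) / X with hs
    have hs1 : 1 ≤ s := by rw [hs, le_div_iff₀ hX0]; linarith
    have hps : (p : ℝ) = s * X := (div_mul_cancel₀ (p : ℝ) hX0.ne').symm
    have hs3 : s ≤ s ^ 3 := by
      calc s = s ^ 1 := (pow_one s).symm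
        _ ≤ s ^ 3 := pow_le_pow_right₀ hs1 (by norm_num)
    have hs2 : s ^ 2 ≤ s ^ 3 := pow_le_pow_right₀ hs1 (by norm_num)
    have hs0 : 1 ≤ s ^ 3 := one_le_pow₀ hs1
    calc a * p + b * (p : ℝ) ^ 2 + c = (a * X) * s + (b * X ^ 2) * s ^ 2 + c * 1 := by
          rw [hps]; ring
      _ ≤ (a * X) * s ^ 3 + (b * X ^ 2) * s ^ 3 + c * s ^ 3 :=
          add_le_add (add_le_add (mul_le_mul_of_nonneg_left hs3 (mul_nonneg ha0 hX0.le))
            (mul_le_mul_of_nonneg_left hs2 (mul_nonneg hb0 (pow_nonneg hX0.le 2))))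
            (mul_le_mul_of_nonneg_left hs0 hc0)
      _ = (a * X + b * X ^ 2 + c) * s ^ 3 := by ring
      _ ≤ (X ^ 3 / 2) * s ^ 3 := mul_le_mul_of_nonneg_right hb (by linarith)
      _ = (p : ℝ) ^ 3 / 2 := by rw [hps]; ring
  have h4 : C * (p : ℝ) ^ 3 ≤ U * (p : ℝ) ^ 4 + C * ((p : ℝ) ^ 3 / 2) :=
    hbasR.trans (by gcongr)
  have h5 : C * (p : ℝ) ^ 3 ≤ (2 * p * U) * (p : ℝ) ^ 3 := by
    have e : (2 * p * U) * (p : ℝ) ^ 3 = 2 * (U * (p : ℝ) ^ 4) := by ring
    rw [e]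
    generalize U * (p : ℝ) ^ 4 = u1 at h4 ⊢
    have e2 : C * ((p : ℝ) ^ 3 / 2) = (C * (p : ℝ) ^ 3) / 2 := by ring
    rw [e2] at h4
    linarith
  have h6 : C ≤ 2 * p * U := le_of_mul_le_mul_right h5 (by positivity)
  calc C ≤ 2 * p * U := h6
    _ ≤ 2 * (2 * (X + 1)) * U := by gcongr
    _ = 4 * (X + 1) * U := by ring

theorem choose_tendsto (r : ℕ) : Tendsto (fun n : ℕ => (n.choose r : ℝ) / (n : ℝ) ^ r) atTop
    (𝓝 (1 / (r.factorial : ℝ))) := by
  have hfac : (0 : ℝ) < (r.factorial : ℝ) := by exact_mod_cast Nat.factorial_pos _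
  have hlow : Tendsto (fun n : ℕ => (1 - (r : ℝ) * (1 / (n : ℝ))) ^ r / (r.factorial : ℝ)) atTop
      (𝓝 (1 / (r.factorial : ℝ))) := by
    have h1 : Tendsto (fun n : ℕ => 1 - (r : ℝ) * (1 / (n : ℝ))) atTop (𝓝 (1 - (r : ℝ) * 0)) :=
      tendsto_const_nhds.sub (tendsto_const_nhds.mul tendsto_one_div_atTop_nhds_zero_nat)
    rw [mul_zero, sub_zero] at h1
    have h2 := (h1.pow r).div_const (r.factorial : ℝ)
    simpa using h2
  have hup : Tendsto (fun _ : ℕ => 1 / (r.factorial : ℝ)) atTop (𝓝 (1 / (r.factorial : ℝ))) :=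
    tendsto_const_nhds
  refine tendsto_of_tendsto_of_tendsto_of_le_of_le' hlow hup ?_ ?_
  · refine (eventually_ge_atTop (r + 1)).mono fun n hn => ?_
    have hn0 : (0 : ℝ) < (n : ℝ) := by exact_mod_cast (by omega : 0 < n)
    have h1 : ((((n + 1 - r : ℕ) : ℝ)) ^ r / (r.factorial : ℝ)) ≤ (n.choose r : ℝ) := by
      have := Nat.pow_le_choose r n (α := ℝ)
      simpa using this
    have h2 : (n : ℝ) - r ≤ ((n + 1 - r : ℕ) : ℝ) := by
      have : ((n + 1 - r : ℕ) : ℝ) = (n : ℝ) + 1 - r := by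
        rw [Nat.cast_sub (by omega)]; push_cast; ring
      rw [this]; linarith
    have h3 : (0 : ℝ) ≤ (n : ℝ) - r := by
      have : (r : ℝ) ≤ (n : ℝ) := by exact_mod_cast (by omega : r ≤ n)
      linarith
    rw [le_div_iff₀ (pow_pos hn0 r)]
    calc (1 - (r : ℝ) * (1 / (n : ℝ))) ^ r / (r.factorial : ℝ) * (n : ℝ) ^ r
        = ((n : ℝ) - r) ^ r / (r.factorial : ℝ) := by
          rw [div_mul_eq_mul_div, ← mul_pow]
          congr 2
          field_simp
      _ ≤ ((n + 1 - r : ℕ) : ℝ) ^ r / (r.factorial : ℝ) := by gcongr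
      _ ≤ _ := h1
  · refine (eventually_ge_atTop 1).mono fun n hn => ?_
    have hn0 : (0 : ℝ) < (n : ℝ) := by exact_mod_cast (by omega : 0 < n)
    have h1 : ((n.choose r : ℕ) : ℝ) ≤ (n : ℝ) ^ r / (r.factorial : ℝ) := by
      have := Nat.choose_le_pow_div (α := ℝ) r n
      simpa using this
    rw [div_le_iff₀ (pow_pos hn0 r)]
    calc _ ≤ _ := h1
      _ = _ := by ring

/-- the general lower bound -/
theorem lower_gen (r t : ℕ) (hr : 1 ≤ r) (κ : ℝ) (hκ : 0 < κ) (Y : ℕ → ℝ)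
    (hY : Tendsto Y atTop atTop)
    (hb : ∀ᶠ n : ℕ in atTop, ((2 : ℝ) ^ r + 4 ^ r) * ((Small (Fin n) t).card : ℝ) *
      (4 ^ r * Y n / κ) + 2 ^ r * ((Small (Fin n) (r - t - 1)).card : ℝ) *
      (4 ^ r * Y n / κ) ^ 2 + 32 ^ r * ((Small (Fin n) (r - 1)).card : ℝ) ≤
      (4 ^ r * Y n / κ) ^ 3 / 2) (ε : ℝ) (hε : 0 < ε) :
    ∀ᶠ n : ℕ in atTop, (1 - ε) * (κ / (4 ^ (r + 1) * (r.factorial : ℝ))) ≤
      (U2 n r : ℝ) * Y n / (n : ℝ) ^ r := by
  have hfac : (0 : ℝ) < (r.factorial : ℝ) := by exact_mod_cast Nat.factorial_pos _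
  set a : ℝ := 4 ^ r / κ with ha
  have ha0 : 0 < a := by positivity
  -- the limit
  have hlim : Tendsto (fun n : ℕ => ((n.choose r : ℝ) / (n : ℝ) ^ r) *
      (1 / (4 * (a + 1 / Y n)))) atTop (𝓝 (κ / (4 ^ (r + 1) * (r.factorial : ℝ)))) := by
    have h1 : Tendsto (fun n : ℕ => 1 / (4 * (a + 1 / Y n))) atTop (𝓝 (1 / (4 * (a + 0)))) := by
      refine tendsto_const_nhds.div (tendsto_const_nhds.mul (tendsto_const_nhds.add ?_)) ?_
      · simp only [one_div]
        exact hY.inv_tendsto_atTop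
      · positivity
    have h2 := (choose_tendsto r).mul h1
    have h3 : 1 / (r.factorial : ℝ) * (1 / (4 * (a + 0))) =
        κ / (4 ^ (r + 1) * (r.factorial : ℝ)) := by
      rw [add_zero, ha, pow_succ]
      field_simp
    rw [h3] at h2
    exact h2
  set L := κ / (4 ^ (r + 1) * (r.factorial : ℝ)) with hL
  have hL0 : 0 < L := by positivity
  have hlt : (1 - ε) * L < L := by nlinarith
  have e1 := hlim.eventually (eventually_gt_nhds hlt)
  have e2 := hY.eventually_ge_atTop (max 1 (4 / a))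
  filter_upwards [e1, e2, hb, eventually_ge_atTop 1] with n h1 h2 h3 h4
  have hY1 : 1 ≤ Y n := le_trans (le_max_left _ _) h2
  have hY4 : 4 / a ≤ Y n := le_trans (le_max_right _ _) h2
  have hX : 4 ≤ 4 ^ r * Y n / κ := by
    rw [div_le_iff₀ ha0] at hY4
    calc (4 : ℝ) ≤ Y n * a := hY4
      _ = 4 ^ r * Y n / κ := by rw [ha]; ring
  have h5 := step n r t hr (4 ^ r * Y n / κ) hX h3
  have hn0 : (0 : ℝ) < (n : ℝ) := by exact_mod_cast (by omega : 0 < n)
  have hY0 : 0 < Y n := by linarith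
  refine h1.le.trans ?_
  rw [div_mul_eq_mul_div, div_le_div_iff_of_pos_right (pow_pos hn0 r)]
  have h6 : 4 * (4 ^ r * Y n / κ + 1) = (4 * (a + 1 / Y n)) * Y n := by
    rw [ha]; field_simp
  rw [h6] at h5
  rw [mul_one_div, div_le_iff₀ (by positivity)]
  calc (n.choose r : ℝ) ≤ _ := h5
    _ = _ := by ring

end Pool.Agent.helper30.UF
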