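import Pool.Agent.helper30.UF.Lower

/-!
# Counting bad labellings and the resulting lower bound for `U₂(n, r)`
-/

set_option autoImplicit false

namespace Pool.Agent.helper30.UF

open Finset Pool.Agent.helper27.UF

section

variable {V : Type*} [Fintype V] [DecidableEq V] {F : Type*} [Field F] [Fintype F] [DecidableEq F]

open Classical in
theorem count0 (A : Finset V) (hA : A.Nonempty) :
    (univ.filter (fun ω : (V → F) × (V → F) => Phi ω A = 0)).card * Fintype.card F =
      Fintype.card F ^ (2 * Fintype.card V) := by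
  have := card_edges (F := F) ![A] (indep_one A hA)
  rw [Fintype.card_fin, pow_one] at this
  rw [← this]
  congr 2
  apply Finset.ext
  intro ω
  simp only [mem_filter, mem_univ, true_and]
  constructor
  · intro h i; fin_cases i; exact h
  · intro h; exact h 0

open Classical in
theorem count1 (t : ℕ) (A : Finset V) (hA : A.Nonempty) :
    (univ.filter (fun ω : (V → F) × (V → F) => Phi ω A = 0 ∧ Bad1 t ω A)).card *
      Fintype.card F ^ 3 ≤
      (2 ^ A.card * (Small V t).card) * Fintype.card F ^ (2 * Fintype.card V) := by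
  have := union_bound (Ω := (V → F) × (V → F)) (A.powerset ×ˢ Small V t)
    (fun c ω => (c.1 ⊆ A ∧ Disjoint c.2 A ∧ c.2.Nonempty) ∧
      (∑ v ∈ c.1, ω.1 v = ∑ v ∈ c.2, ω.1 v) ∧ (∑ v ∈ c.1, ω.2 v = ∑ v ∈ c.2, ω.2 v) ∧
      Phi ω A = 0)
    (fun ω => Phi ω A = 0 ∧ Bad1 t ω A) (by
      rintro ω ⟨h0, Q, Q', h1, h2, h3, h4, h5, h6⟩
      exact ⟨(Q, Q'), mem_product.mpr ⟨mem_powerset.mpr h1, mem_filter.mpr ⟨mem_univ _, h4⟩⟩,
        ⟨h1, h2, h3⟩, h5, h6, h0⟩)
    (Fintype.card F ^ 3) (Fintype.card F ^ (2 * Fintype.card V)) (by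
      rintro ⟨Q, Q'⟩ _
      by_cases hc : Q ⊆ A ∧ Disjoint Q' A ∧ Q'.Nonempty
      · have := card_coll (F := F) A Q Q' hc.1 hc.2.1 hc.2.2 hA
        rw [← this]
        refine Nat.mul_le_mul_right _ (Finset.card_le_card ?_)
        intro ω hω
        rw [mem_filter] at hω ⊢
        exact ⟨mem_univ _, hω.2.2⟩
      · have : (univ.filter (fun ω : (V → F) × (V → F) => (Q ⊆ A ∧ Disjoint Q' A ∧ Q'.Nonempty) ∧
          (∑ v ∈ Q, ω.1 v = ∑ v ∈ Q', ω.1 v) ∧ (∑ v ∈ Q, ω.2 v = ∑ v ∈ Q', ω.2 v) ∧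
          Phi ω A = 0)) = ∅ := by
          apply Finset.filter_eq_empty_iff.mpr
          intro ω _ h
          exact hc h.1
        simp only [this, card_empty, zero_mul]
        exact Nat.zero_le _)
  rwa [card_product, card_powerset] at this

open Classical in
theorem count2 (r t : ℕ) (A : Finset V) (hA : A.card = r) :
    (univ.filter (fun ω : (V → F) × (V → F) => Phi ω A = 0 ∧ Bad2 r t ω A)).card *
      Fintype.card F ^ 2 ≤
      (2 ^ r * (Small V (r - t - 1)).card) * Fintype.card F ^ (2 * Fintype.card V) := by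
  have := union_bound (Ω := (V → F) × (V → F)) (A.powerset ×ˢ Small V (r - t - 1))
    (fun c ω => ((c.1 ∪ c.2).card = r ∧ A ≠ c.1 ∪ c.2) ∧ ∀ i, Phi ω (![A, c.1 ∪ c.2] i) = 0)
    (fun ω => Phi ω A = 0 ∧ Bad2 r t ω A) (by
      rintro ω ⟨h0, C, h1, h2, h3, h4⟩
      have hU : A ∩ C ∪ C \ A = C := by
        rw [inter_comm, union_comm]; exact sdiff_union_inter C A
      refine ⟨(A ∩ C, C \ A), mem_product.mpr ⟨mem_powerset.mpr inter_subset_left,
        mem_filter.mpr ⟨mem_univ _, ?_⟩⟩, ?_⟩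
      · have e2 := Finset.card_sdiff_add_card_inter C A
        rw [inter_comm C A] at e2
        simp only
        omega
      · simp only [hU]
        refine ⟨⟨h1, h2⟩, ?_⟩
        intro i
        fin_cases i
        · exact h0
        · exact h4)
    (Fintype.card F ^ 2) (Fintype.card F ^ (2 * Fintype.card V)) (by
      rintro ⟨X, Y⟩ _
      by_cases hc : (X ∪ Y).card = r ∧ A ≠ X ∪ Y
      · have := card_edges (F := F) ![A, X ∪ Y] (indep_two A (X ∪ Y) (hA.trans hc.1.symm) hc.2)
        rw [Fintype.card_fin] at this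
        rw [← this]
        refine Nat.mul_le_mul_right _ (Finset.card_le_card ?_)
        intro ω hω
        rw [mem_filter] at hω ⊢
        exact ⟨mem_univ _, hω.2.2⟩
      · have : (univ.filter (fun ω : (V → F) × (V → F) => ((X ∪ Y).card = r ∧ A ≠ X ∪ Y) ∧
          ∀ i, Phi ω (![A, X ∪ Y] i) = 0)) = ∅ := by
          apply Finset.filter_eq_empty_iff.mpr
          intro ω _ h
          exact hc h.1
        simp only [this, card_empty, zero_mul]
        exact Nat.zero_le _)
  rwa [card_product, card_powerset, hA] at this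

open Classical in
theorem count3 (h2 : (2 : F) ≠ 0) (r t : ℕ) (A : Finset V) (hA : A.card = r) :
    (univ.filter (fun ω : (V → F) × (V → F) => Phi ω A = 0 ∧ Bad3 r t ω A)).card *
      Fintype.card F ^ 3 ≤
      (4 ^ r * (Small V t).card) * Fintype.card F ^ (2 * Fintype.card V) := by
  have := union_bound (Ω := (V → F) × (V → F)) (A.powerset ×ˢ A.powerset ×ˢ Small V t)
    (fun c ω => ((c.1 ∪ c.2.2).card = r ∧ (c.2.1 ∪ c.2.2).card = r ∧ A ≠ c.1 ∪ c.2.2 ∧
      c.1 ∪ c.2.2 ≠ c.2.1 ∪ c.2.2 ∧ A ∪ (c.1 ∪ c.2.2) = A ∪ (c.2.1 ∪ c.2.2)) ∧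
      ∀ i, Phi ω (![A, c.1 ∪ c.2.2, c.2.1 ∪ c.2.2] i) = 0)
    (fun ω => Phi ω A = 0 ∧ Bad3 r t ω A) (by
      rintro ω ⟨h0, B, D, h1, h2, h3, h4, h5, h6, h7, h8⟩
      have hB : B \ D ∪ B ∩ D = B := sdiff_union_inter B D
      have hD : D \ B ∪ B ∩ D = D := by rw [inter_comm]; exact sdiff_union_inter D B
      refine ⟨(B \ D, D \ B, B ∩ D), mem_product.mpr ⟨mem_powerset.mpr ?_,
        mem_product.mpr ⟨mem_powerset.mpr ?_, mem_filter.mpr ⟨mem_univ _, h6⟩⟩⟩, ?_⟩
      · intro x hx
        obtain ⟨xB, xD⟩ := mem_sdiff.mp hx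
        exact (mem_union.mp (h5 ▸ mem_union_right A xB)).resolve_right xD
      · intro x hx
        obtain ⟨xD, xB⟩ := mem_sdiff.mp hx
        exact (mem_union.mp (h5.symm ▸ mem_union_right A xD)).resolve_right xB
      · simp only [hB, hD]
        refine ⟨⟨h1, h2, h3, h4, h5⟩, ?_⟩
        intro i
        fin_cases i
        · exact h0
        · exact h7
        · exact h8)
    (Fintype.card F ^ 3) (Fintype.card F ^ (2 * Fintype.card V)) (by
      rintro ⟨X, Y, Z⟩ _
      by_cases hc : ((X ∪ Z).card = r ∧ (Y ∪ Z).card = r ∧ A ≠ X ∪ Z ∧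
          X ∪ Z ≠ Y ∪ Z ∧ A ∪ (X ∪ Z) = A ∪ (Y ∪ Z))
      · have := card_edges (F := F) ![A, X ∪ Z, Y ∪ Z] (indep_three h2 A (X ∪ Z) (Y ∪ Z)
          (hA.trans hc.1.symm) (hA.trans hc.2.1.symm) hc.2.2.1 hc.2.2.2.1 hc.2.2.2.2)
        rw [Fintype.card_fin] at this
        rw [← this]
        refine Nat.mul_le_mul_right _ (Finset.card_le_card ?_)
        intro ω hω
        rw [mem_filter] at hω ⊢
        exact ⟨mem_univ _, hω.2.2⟩
      · have : (univ.filter (fun ω : (V → F) × (V → F) => ((X ∪ Z).card = r ∧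
          (Y ∪ Z).card = r ∧ A ≠ X ∪ Z ∧ X ∪ Z ≠ Y ∪ Z ∧ A ∪ (X ∪ Z) = A ∪ (Y ∪ Z)) ∧
          ∀ i, Phi ω (![A, X ∪ Z, Y ∪ Z] i) = 0)) = ∅ := by
          apply Finset.filter_eq_empty_iff.mpr
          intro ω _ h
          exact hc h.1
        simp only [this, card_empty, zero_mul]
        exact Nat.zero_le _)
  rw [card_product, card_product, card_powerset, hA] at this
  calc _ ≤ _ := this
    _ = _ := by
      have : (4 : ℕ) ^ r = 2 ^ r * 2 ^ r := by rw [← mul_pow]; norm_num
      rw [this]; ring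

open Classical in
theorem count4 (h2 : (2 : F) ≠ 0) (h3 : (3 : F) ≠ 0) (r : ℕ) (A : Finset V)
    (hA : A.card = r) :
    (univ.filter (fun ω : (V → F) × (V → F) => Phi ω A = 0 ∧ Bad4 r ω A)).card *
      Fintype.card F ^ 4 ≤
      (32 ^ r * (Small V (r - 1)).card) * Fintype.card F ^ (2 * Fintype.card V) := by
  set S : Finset (Σ _ : Finset V × Finset V, Finset V × Finset V) :=
    (A.powerset ×ˢ Small V (r - 1)).sigma
      (fun c => (A ∪ c.2).powerset ×ˢ (A ∪ c.2).powerset) with hS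
  have hScard : S.card ≤ 32 ^ r * (Small V (r - 1)).card := by
    rw [hS, card_sigma]
    calc ∑ c ∈ A.powerset ×ˢ Small V (r - 1), ((A ∪ c.2).powerset ×ˢ (A ∪ c.2).powerset).card
        ≤ ∑ _c ∈ A.powerset ×ˢ Small V (r - 1), 16 ^ r := by
          refine Finset.sum_le_sum fun c hc => ?_
          rw [card_product, card_powerset]
          have h1 : (A ∪ c.2).card ≤ 2 * r := by
            have h2 := Finset.card_union_le A c.2
            have h3 := (mem_filter.mp (mem_product.mp hc).2).2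
            omega
          calc 2 ^ (A ∪ c.2).card * 2 ^ (A ∪ c.2).card ≤ 2 ^ (2 * r) * 2 ^ (2 * r) :=
                Nat.mul_le_mul (Nat.pow_le_pow_right (by norm_num) h1)
                  (Nat.pow_le_pow_right (by norm_num) h1)
            _ = 16 ^ r := by
                rw [← pow_add, show 2 * r + 2 * r = 4 * r by ring, pow_mul]; norm_num
      _ = 32 ^ r * (Small V (r - 1)).card := by
          rw [sum_const, card_product, card_powerset, hA, smul_eq_mul]
          have : (32 : ℕ) ^ r = 2 ^ r * 16 ^ r := by rw [← mul_pow]; norm_num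
          rw [this]; ring
  have := union_bound (Ω := (V → F) × (V → F)) S
    (fun c ω => ((c.1.1 ∪ c.1.2).card = r ∧ c.2.1.card = r ∧ c.2.2.card = r ∧
      A ≠ c.1.1 ∪ c.1.2 ∧ A ≠ c.2.1 ∧ A ≠ c.2.2 ∧ c.1.1 ∪ c.1.2 ≠ c.2.1 ∧
      c.1.1 ∪ c.1.2 ≠ c.2.2 ∧ c.2.1 ≠ c.2.2 ∧ A ∪ (c.1.1 ∪ c.1.2) = c.2.1 ∪ c.2.2 ∧
      A ∩ (c.1.1 ∪ c.1.2) ≠ c.2.1 ∩ c.2.2) ∧
      ∀ i, Phi ω (![A, c.1.1 ∪ c.1.2, c.2.1, c.2.2] i) = 0)
    (fun ω => Phi ω A = 0 ∧ Bad4 r ω A) (by
      rintro ω ⟨h0, B, C, D, cB, cC, cD, nAB, nAC, nAD, nBC, nBD, nCD, hU, hI, pB, pC, pD⟩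
      have hB : A ∩ B ∪ B \ A = B := by
        rw [inter_comm, union_comm]; exact sdiff_union_inter B A
      have hcard : (A ∩ B).card = (C ∩ D).card := by
        have h1 := Finset.card_union_add_card_inter A B
        have h2 := Finset.card_union_add_card_inter C D
        rw [hU] at h1
        omega
      have hpos : 1 ≤ (A ∩ B).card := by
        obtain ⟨v, hv, -⟩ := exists_diff hcard hI
        exact Finset.card_pos.mpr ⟨v, hv⟩
      have hAU : A ∪ B \ A = A ∪ B := union_sdiff_self_eq_union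
      refine ⟨⟨(A ∩ B, B \ A), (C, D)⟩, ?_, ?_⟩
      · rw [hS, mem_sigma]
        refine ⟨mem_product.mpr ⟨mem_powerset.mpr inter_subset_left,
          mem_filter.mpr ⟨mem_univ _, ?_⟩⟩, ?_⟩
        · have e2 := Finset.card_sdiff_add_card_inter B A
          rw [inter_comm B A] at e2
          simp only
          omega
        · simp only [hAU, hU]
          exact mem_product.mpr ⟨mem_powerset.mpr subset_union_left,
            mem_powerset.mpr subset_union_right⟩
      · simp only [hB]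
        refine ⟨⟨cB, cC, cD, nAB, nAC, nAD, nBC, nBD, nCD, hU, hI⟩, ?_⟩
        intro i
        fin_cases i
        · exact h0
        · exact pB
        · exact pC
        · exact pD)
    (Fintype.card F ^ 4) (Fintype.card F ^ (2 * Fintype.card V)) (by
      rintro ⟨⟨X, Y⟩, ⟨C, D⟩⟩ _
      by_cases hc : ((X ∪ Y).card = r ∧ C.card = r ∧ D.card = r ∧
          A ≠ X ∪ Y ∧ A ≠ C ∧ A ≠ D ∧ X ∪ Y ≠ C ∧ X ∪ Y ≠ D ∧ C ≠ D ∧
          A ∪ (X ∪ Y) = C ∪ D ∧ A ∩ (X ∪ Y) ≠ C ∩ D)
      · obtain ⟨c1, c2, c3, n1, n2, n3, n4, n5, n6, hU, hI⟩ := hc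
        have := card_edges (F := F) ![A, X ∪ Y, C, D] (indep_four h2 h3 A (X ∪ Y) C D
          (hA.trans c1.symm) (hA.trans c2.symm) (hA.trans c3.symm) n1 n2 n3 n4 n5 n6 hU hI)
        rw [Fintype.card_fin] at this
        rw [← this]
        refine Nat.mul_le_mul_right _ (Finset.card_le_card ?_)
        intro ω hω
        rw [mem_filter] at hω ⊢
        exact ⟨mem_univ _, hω.2.2⟩
      · have : (univ.filter (fun ω : (V → F) × (V → F) => ((X ∪ Y).card = r ∧ C.card = r ∧
          D.card = r ∧ A ≠ X ∪ Y ∧ A ≠ C ∧ A ≠ D ∧ X ∪ Y ≠ C ∧ X ∪ Y ≠ D ∧ C ≠ D ∧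
          A ∪ (X ∪ Y) = C ∪ D ∧ A ∩ (X ∪ Y) ≠ C ∩ D) ∧
          ∀ i, Phi ω (![A, X ∪ Y, C, D] i) = 0)) = ∅ := by
          apply Finset.filter_eq_empty_iff.mpr
          intro ω _ h
          exact hc h.1
        simp only [this, card_empty, zero_mul]
        exact Nat.zero_le _)
  exact this.trans (Nat.mul_le_mul_right _ hScard)

end

/-- **The basic inequality.** -/
theorem basic (n r t : ℕ) (hr : 1 ≤ r) {F : Type*} [Field F] [Fintype F] (h2 : (2 : F) ≠ 0)
    (h3 : (3 : F) ≠ 0) :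
    n.choose r * Fintype.card F ^ 3 ≤ U2 n r * Fintype.card F ^ 4 + n.choose r *
      ((2 ^ r + 4 ^ r) * (Small (Fin n) t).card * Fintype.card F +
        2 ^ r * (Small (Fin n) (r - t - 1)).card * Fintype.card F ^ 2 +
        32 ^ r * (Small (Fin n) (r - 1)).card) := by
  classical
  set q := Fintype.card F with hq
  have hq0 : 0 < q := Fintype.card_pos
  set V := Fin n
  set Q := q ^ (2 * Fintype.card V) with hQ
  have hQ0 : 0 < Q := pow_pos hq0 _
  set Ω := (V → F) × (V → F)
  have hΩ : Fintype.card Ω = Q := by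
    rw [Fintype.card_prod, Fintype.card_fun, ← pow_add, ← two_mul]
  -- per edge
  have per : ∀ A ∈ powersetCard r (univ : Finset V), Q * q ^ 3 ≤
      (univ.filter (fun ω : Ω => Good r t ω A)).card * q ^ 4 + Q *
      ((2 ^ r + 4 ^ r) * (Small V t).card * q +
        2 ^ r * (Small V (r - t - 1)).card * q ^ 2 + 32 ^ r * (Small V (r - 1)).card) := by
    intro A hA
    have hAr : A.card = r := (mem_powersetCard.mp hA).2
    have hAn : A.Nonempty := Finset.card_pos.mp (by omega)
    have c0 := count0 (F := F) A hAn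
    have c1 := count1 (F := F) t A hAn
    have c2 := count2 (F := F) r t A hAr
    have c3 := count3 (F := F) h2 r t A hAr
    have c4 := count4 (F := F) h2 h3 r A hAr
    rw [hAr] at c1
    rw [← hq, ← hQ] at c0 c1 c2 c3 c4
    set f0 := (univ.filter (fun ω : Ω => Phi ω A = 0)).card with hf0
    set f1 := (univ.filter (fun ω : Ω => Phi ω A = 0 ∧ Bad1 t ω A)).card with hf1
    set f2 := (univ.filter (fun ω : Ω => Phi ω A = 0 ∧ Bad2 r t ω A)).card with hf2
    set f3 := (univ.filter (fun ω : Ω => Phi ω A = 0 ∧ Bad3 r t ω A)).card with hf3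
    set f4 := (univ.filter (fun ω : Ω => Phi ω A = 0 ∧ Bad4 r ω A)).card with hf4
    set g := (univ.filter (fun ω : Ω => Good r t ω A)).card with hg
    have hsub : f0 ≤ g + (f1 + f2 + f3 + f4) := by
      have : univ.filter (fun ω : Ω => Phi ω A = 0) ⊆
          univ.filter (fun ω : Ω => Good r t ω A) ∪
          (((univ.filter (fun ω : Ω => Phi ω A = 0 ∧ Bad1 t ω A) ∪
          univ.filter (fun ω : Ω => Phi ω A = 0 ∧ Bad2 r t ω A)) ∪
          univ.filter (fun ω : Ω => Phi ω A = 0 ∧ Bad3 r t ω A)) ∪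
          univ.filter (fun ω : Ω => Phi ω A = 0 ∧ Bad4 r ω A)) := by
        intro ω hω
        have h0 := (mem_filter.mp hω).2
        simp only [mem_union, mem_filter, mem_univ, true_and, Good]
        by_cases b1 : Bad1 t ω A
        · tauto
        by_cases b2 : Bad2 r t ω A
        · tauto
        by_cases b3 : Bad3 r t ω A
        · tauto
        by_cases b4 : Bad4 r ω A
        · tauto
        tauto
      refine (Finset.card_le_card this).trans ?_
      refine (Finset.card_union_le _ _).trans (Nat.add_le_add_left ?_ _)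
      refine (Finset.card_union_le _ _).trans (Nat.add_le_add_right ?_ _)
      refine (Finset.card_union_le _ _).trans (Nat.add_le_add_right ?_ _)
      exact Finset.card_union_le _ _
    calc Q * q ^ 3 = f0 * q ^ 4 := by rw [← c0]; ring
      _ ≤ (g + (f1 + f2 + f3 + f4)) * q ^ 4 := Nat.mul_le_mul_right _ hsub
      _ = g * q ^ 4 + ((f1 * q ^ 3) * q + (f2 * q ^ 2) * q ^ 2 + (f3 * q ^ 3) * q +
            f4 * q ^ 4) := by ring
      _ ≤ g * q ^ 4 + ((2 ^ r * (Small V t).card * Q) * q +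
            (2 ^ r * (Small V (r - t - 1)).card * Q) * q ^ 2 +
            (4 ^ r * (Small V t).card * Q) * q + 32 ^ r * (Small V (r - 1)).card * Q) := by
          gcongr
      _ = _ := by ring
  -- sum
  have hsum : ∑ A ∈ powersetCard r (univ : Finset V),
      (univ.filter (fun ω : Ω => Good r t ω A)).card ≤ Q * U2 n r := by
    have h1 : ∑ A ∈ powersetCard r (univ : Finset V),
        (univ.filter (fun ω : Ω => Good r t ω A)).card =
        ∑ ω : Ω, ((powersetCard r (univ : Finset V)).filter (fun A => Good r t ω A)).card := by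
      simp only [Finset.card_filter]
      exact Finset.sum_comm
    rw [h1]
    calc _ ≤ ∑ _ω : Ω, U2 n r := by
          refine Finset.sum_le_sum fun ω _ => ?_
          refine le_U2_fin n r _ ?_ (good_pairFree (t := t) (r := r) (ω := ω) h2 _ ?_)
          · intro e he
            exact (mem_powersetCard.mp (mem_filter.mp he).1).2
          · intro A hA
            exact (mem_filter.mp hA).2
      _ = Q * U2 n r := by rw [sum_const, card_univ, hΩ, smul_eq_mul]
  have hcardP : (powersetCard r (univ : Finset V)).card = n.choose r := by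
    rw [card_powersetCard, card_univ, Fintype.card_fin]
  have htot := Finset.sum_le_sum per
  rw [Finset.sum_const, Finset.sum_add_distrib, Finset.sum_const, hcardP,
    smul_eq_mul, smul_eq_mul, ← Finset.sum_mul] at htot
  have h5 : Q * (n.choose r * q ^ 3) ≤ Q * (U2 n r * q ^ 4 + n.choose r *
      ((2 ^ r + 4 ^ r) * (Small V t).card * q +
        2 ^ r * (Small V (r - t - 1)).card * q ^ 2 + 32 ^ r * (Small V (r - 1)).card)) := by
    calc Q * (n.choose r * q ^ 3) = n.choose r * (Q * q ^ 3) := by ring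
      _ ≤ _ := htot
      _ ≤ (Q * U2 n r) * q ^ 4 + n.choose r * (Q *
      ((2 ^ r + 4 ^ r) * (Small V t).card * q +
        2 ^ r * (Small V (r - t - 1)).card * q ^ 2 + 32 ^ r * (Small V (r - 1)).card)) := by
          gcongr
      _ = _ := by ring
  exact Nat.le_of_mul_le_mul_left h5 hQ0

end Pool.Agent.helper30.UF
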