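import Pool.Agent.helper30.UF.Asym

/-!
# Two-sided bounds for `U₂(n, r)`
-/

set_option autoImplicit false

namespace Pool.Agent.helper30.UF

open Finset Pool.Agent.helper27.UF Filter Topology

theorem lower_one (k : ℕ) (hk : 1 ≤ k) (ε : ℝ) (hε : 0 < ε) : ∀ᶠ n : ℕ in atTop,
    (1 - ε) * ((k.factorial : ℝ) / (4 ^ (3 * k + 2) * ((3 * k + 1).factorial : ℝ))) ≤
      (U2 n (3 * k + 1) : ℝ) / (n : ℝ) ^ (2 * k + 1) := by
  have hκ : (0 : ℝ) < (k.factorial : ℝ) := by exact_mod_cast Nat.factorial_pos _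
  have hY : Tendsto (fun n : ℕ => (n : ℝ) ^ k) atTop atTop :=
    (tendsto_pow_atTop (by omega)).comp tendsto_natCast_atTop_atTop
  have hf2 : (k.factorial : ℝ) ^ 2 ≤ ((2 * k).factorial : ℝ) := by
    have : k.factorial * k.factorial ≤ (k + k).factorial :=
      Nat.le_of_dvd (Nat.factorial_pos _) (Nat.factorial_mul_factorial_dvd_factorial_add k k)
    rw [← two_mul] at this
    rw [pow_two]
    exact_mod_cast this
  have hf3 : (k.factorial : ℝ) ^ 3 ≤ ((3 * k).factorial : ℝ) := by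
    have : (2 * k).factorial * k.factorial ≤ (2 * k + k).factorial :=
      Nat.le_of_dvd (Nat.factorial_pos _) (Nat.factorial_mul_factorial_dvd_factorial_add _ _)
    have h' : ((2 * k).factorial : ℝ) * (k.factorial : ℝ) ≤ ((3 * k).factorial : ℝ) := by
      rw [show 3 * k = 2 * k + k by ring]
      exact_mod_cast this
    calc (k.factorial : ℝ) ^ 3 = (k.factorial : ℝ) ^ 2 * (k.factorial : ℝ) := by ring
      _ ≤ ((2 * k).factorial : ℝ) * (k.factorial : ℝ) := by gcongr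
      _ ≤ _ := h'
  have main := lower_gen (3 * k + 1) (2 * k) (by omega) (k.factorial : ℝ) hκ
    (fun n : ℕ => (n : ℝ) ^ k) hY ?_ ε hε
  · filter_upwards [main, eventually_ge_atTop 1] with n hn hn1
    have hn0 : (0 : ℝ) < (n : ℝ) := by exact_mod_cast (by omega : 0 < n)
    have e : (U2 n (3 * k + 1) : ℝ) * (n : ℝ) ^ k / (n : ℝ) ^ (3 * k + 1) =
        (U2 n (3 * k + 1) : ℝ) / (n : ℝ) ^ (2 * k + 1) := by
      rw [show 3 * k + 1 = k + (2 * k + 1) by ring, pow_add (n : ℝ) k (2 * k + 1)]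
      rw [div_eq_div_iff (by positivity) (by positivity)]
      ring
    rw [e] at hn
    exact hn
  · filter_upwards [small_eventually (2 * k), small_eventually k, small_eventually (3 * k)]
      with n h1 h2 h3
    have ex1 : 3 * k + 1 - 2 * k - 1 = k := by omega
    have ex2 : 3 * k + 1 - 1 = 3 * k := by omega
    rw [ex1, ex2]
    set w : ℝ := 2 ^ (3 * k + 1) with hw
    have hw4 : (4 : ℝ) ^ (3 * k + 1) = w ^ 2 := by
      rw [show (4 : ℝ) = 2 ^ 2 by norm_num, hw, pow_right_comm]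
    have hw32 : (32 : ℝ) ^ (3 * k + 1) = w ^ 5 := by
      rw [show (32 : ℝ) = 2 ^ 5 by norm_num, hw, pow_right_comm]
    have hw16 : (16 : ℝ) ≤ w := by
      calc (16 : ℝ) = 2 ^ 4 := by norm_num
        _ ≤ 2 ^ (3 * k + 1) := pow_le_pow_right₀ (by norm_num) (by omega)
    rw [hw4, hw32]
    set z : ℝ := (n : ℝ) ^ k / (k.factorial : ℝ) with hz
    have hz0 : 0 ≤ z := by positivity
    have hX : w ^ 2 * (n : ℝ) ^ k / (k.factorial : ℝ) = w ^ 2 * z := by rw [hz]; ring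
    rw [hX]
    have hN1 : ((Small (Fin n) (2 * k)).card : ℝ) ≤ 2 * z ^ 2 := by
      refine h1.trans ?_
      rw [hz, div_pow, mul_div_assoc, ← pow_mul, mul_comm k 2]
      gcongr
    have hN2 : ((Small (Fin n) k).card : ℝ) ≤ 2 * z := by
      refine h2.trans (le_of_eq ?_)
      rw [hz]; ring
    have hN3 : ((Small (Fin n) (3 * k)).card : ℝ) ≤ 2 * z ^ 3 := by
      refine h3.trans ?_
      rw [hz, div_pow, mul_div_assoc, ← pow_mul, mul_comm k 3]
      gcongr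
    have hw0 : 0 ≤ w := by linarith
    calc (w + w ^ 2) * ((Small (Fin n) (2 * k)).card : ℝ) * (w ^ 2 * z) +
          w * ((Small (Fin n) k).card : ℝ) * (w ^ 2 * z) ^ 2 +
          w ^ 5 * ((Small (Fin n) (3 * k)).card : ℝ)
        ≤ (w + w ^ 2) * (2 * z ^ 2) * (w ^ 2 * z) + w * (2 * z) * (w ^ 2 * z) ^ 2 +
          w ^ 5 * (2 * z ^ 3) := by gcongr
      _ = (2 * (1 + w + 2 * w ^ 2)) * (w ^ 3 * z ^ 3) := by ring
      _ ≤ (w ^ 3 / 2) * (w ^ 3 * z ^ 3) := by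
          apply mul_le_mul_of_nonneg_right _ (by positivity)
          nlinarith [mul_nonneg hw0 hw0, mul_le_mul_of_nonneg_left hw16 (mul_nonneg hw0 hw0)]
      _ = (w ^ 2 * z) ^ 3 / 2 := by ring

theorem lower_two (k : ℕ) (ε : ℝ) (hε : 0 < ε) : ∀ᶠ n : ℕ in atTop,
    (1 - ε) * (√((2 * k + 1).factorial : ℝ) / (4 ^ (3 * k + 3) * ((3 * k + 2).factorial : ℝ))) ≤
      (U2 n (3 * k + 2) : ℝ) / ((n : ℝ) ^ (2 * k + 1) * √(n : ℝ)) := by
  have hfp : (0 : ℝ) < ((2 * k + 1).factorial : ℝ) := by exact_mod_cast Nat.factorial_pos _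
  set κ : ℝ := √((2 * k + 1).factorial : ℝ) with hκdef
  have hκ : 0 < κ := Real.sqrt_pos.mpr hfp
  have hκ2 : κ ^ 2 = ((2 * k + 1).factorial : ℝ) := Real.sq_sqrt hfp.le
  have hsq : Tendsto (fun n : ℕ => √(n : ℝ)) atTop atTop :=
    Real.tendsto_sqrt_atTop.comp tendsto_natCast_atTop_atTop
  have hY : Tendsto (fun n : ℕ => (n : ℝ) ^ k * √(n : ℝ)) atTop atTop := by
    refine tendsto_atTop_mono' _ ?_ hsq
    filter_upwards [eventually_ge_atTop 1] with n hn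
    have : (1 : ℝ) ≤ (n : ℝ) := by exact_mod_cast hn
    have h1 : (1 : ℝ) ≤ (n : ℝ) ^ k := one_le_pow₀ this
    nlinarith [Real.sqrt_nonneg (n : ℝ)]
  have main := lower_gen (3 * k + 2) (2 * k + 1) (by omega) κ hκ
    (fun n : ℕ => (n : ℝ) ^ k * √(n : ℝ)) hY ?_ ε hε
  · filter_upwards [main, eventually_ge_atTop 1] with n hn hn1
    have hn0 : (0 : ℝ) < (n : ℝ) := by exact_mod_cast (by omega : 0 < n)
    have hs0 : 0 < √(n : ℝ) := Real.sqrt_pos.mpr hn0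
    have hs2 : √(n : ℝ) * √(n : ℝ) = (n : ℝ) := Real.mul_self_sqrt hn0.le
    have e : (U2 n (3 * k + 2) : ℝ) * ((n : ℝ) ^ k * √(n : ℝ)) / (n : ℝ) ^ (3 * k + 2) =
        (U2 n (3 * k + 2) : ℝ) / ((n : ℝ) ^ (2 * k + 1) * √(n : ℝ)) := by
      rw [div_eq_div_iff (by positivity) (by positivity)]
      calc (U2 n (3 * k + 2) : ℝ) * ((n : ℝ) ^ k * √(n : ℝ)) * ((n : ℝ) ^ (2 * k + 1) * √(n : ℝ))
          = (U2 n (3 * k + 2) : ℝ) * ((n : ℝ) ^ k * (n : ℝ) ^ (2 * k + 1)) *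
            (√(n : ℝ) * √(n : ℝ)) := by ring
        _ = (U2 n (3 * k + 2) : ℝ) * (n : ℝ) ^ (3 * k + 2) := by rw [hs2]; ring
    rw [e] at hn
    exact hn
  · filter_upwards [small_eventually (2 * k + 1), small_eventually k,
      small_eventually (3 * k + 1), hsq.eventually_ge_atTop (max (32 * κ) (32 * κ ^ 3)),
      eventually_ge_atTop 1] with n h1 h2 h3 h4 hn1
    have hn0 : (0 : ℝ) < (n : ℝ) := by exact_mod_cast (by omega : 0 < n)
    have hs0 : 0 < √(n : ℝ) := Real.sqrt_pos.mpr hn0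
    have hs2 : √(n : ℝ) * √(n : ℝ) = (n : ℝ) := Real.mul_self_sqrt hn0.le
    have h5 : 32 * κ ≤ √(n : ℝ) := le_trans (le_max_left _ _) h4
    have h6 : 32 * κ ^ 3 ≤ √(n : ℝ) := le_trans (le_max_right _ _) h4
    have ex1 : 3 * k + 2 - (2 * k + 1) - 1 = k := by omega
    have ex2 : 3 * k + 2 - 1 = 3 * k + 1 := by omega
    rw [ex1, ex2]
    set w : ℝ := 2 ^ (3 * k + 2) with hw
    have hw4 : (4 : ℝ) ^ (3 * k + 2) = w ^ 2 := by
      rw [show (4 : ℝ) = 2 ^ 2 by norm_num, hw, pow_right_comm]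
    have hw32 : (32 : ℝ) ^ (3 * k + 2) = w ^ 5 := by
      rw [show (32 : ℝ) = 2 ^ 5 by norm_num, hw, pow_right_comm]
    have hw16 : (4 : ℝ) ≤ w := by
      calc (4 : ℝ) = 2 ^ 2 := by norm_num
        _ ≤ 2 ^ (3 * k + 2) := pow_le_pow_right₀ (by norm_num) (by omega)
    rw [hw4, hw32]
    set z : ℝ := (n : ℝ) ^ k * √(n : ℝ) / κ with hz
    have hz0 : 0 ≤ z := by positivity
    have hX : w ^ 2 * ((n : ℝ) ^ k * √(n : ℝ)) / κ = w ^ 2 * z := by rw [hz]; ring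
    rw [hX]
    have hN1 : ((Small (Fin n) (2 * k + 1)).card : ℝ) ≤ 2 * z ^ 2 := by
      refine h1.trans (le_of_eq ?_)
      rw [hz, div_pow, hκ2, mul_div_assoc]
      congr 2
      calc (n : ℝ) ^ (2 * k + 1) = ((n : ℝ) ^ k) ^ 2 * (n : ℝ) := by ring
        _ = ((n : ℝ) ^ k) ^ 2 * (√(n : ℝ) * √(n : ℝ)) := by rw [hs2]
        _ = ((n : ℝ) ^ k * √(n : ℝ)) ^ 2 := by ring
    have hw0 : 0 ≤ w := by linarith
    have hfk : (1 : ℝ) ≤ (k.factorial : ℝ) := by exact_mod_cast Nat.factorial_pos k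
    have hf3 : (1 : ℝ) ≤ ((3 * k + 1).factorial : ℝ) := by
      exact_mod_cast Nat.factorial_pos (3 * k + 1)
    have hN2 : ((Small (Fin n) k).card : ℝ) ≤ w * z / 16 := by
      refine h2.trans ?_
      have a1 : 2 * (n : ℝ) ^ k / (k.factorial : ℝ) ≤ 2 * (n : ℝ) ^ k :=
        div_le_self (by positivity) hfk
      have a2 : 2 * (n : ℝ) ^ k ≤ 4 * z / 16 := by
        rw [hz, le_div_iff₀ (by norm_num), ← mul_div_assoc, le_div_iff₀ hκ]
        calc 2 * (n : ℝ) ^ k * 16 * κ = (n : ℝ) ^ k * (32 * κ) := by ring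
          _ ≤ (n : ℝ) ^ k * √(n : ℝ) := by gcongr
          _ ≤ 4 * ((n : ℝ) ^ k * √(n : ℝ)) := by
            have : 0 ≤ (n : ℝ) ^ k * √(n : ℝ) := by positivity
            linarith
      have a3 : 4 * z / 16 ≤ w * z / 16 := by gcongr
      linarith
    have hN3 : ((Small (Fin n) (3 * k + 1)).card : ℝ) ≤ w * z ^ 3 / 16 := by
      refine h3.trans ?_
      have a1 : 2 * (n : ℝ) ^ (3 * k + 1) / ((3 * k + 1).factorial : ℝ) ≤
          2 * (n : ℝ) ^ (3 * k + 1) := div_le_self (by positivity) hf3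
      have hz3 : z ^ 3 = (n : ℝ) ^ (3 * k + 1) * √(n : ℝ) / κ ^ 3 := by
        rw [hz, div_pow]
        congr 1
        calc ((n : ℝ) ^ k * √(n : ℝ)) ^ 3 = (n : ℝ) ^ (3 * k) * (√(n : ℝ) * √(n : ℝ)) *
              √(n : ℝ) := by ring
          _ = (n : ℝ) ^ (3 * k + 1) * √(n : ℝ) := by rw [hs2]; ring
      have a2 : 2 * (n : ℝ) ^ (3 * k + 1) ≤ 4 * z ^ 3 / 16 := by
        rw [hz3, le_div_iff₀ (by norm_num), ← mul_div_assoc, le_div_iff₀ (by positivity)]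
        calc 2 * (n : ℝ) ^ (3 * k + 1) * 16 * κ ^ 3 = (n : ℝ) ^ (3 * k + 1) * (32 * κ ^ 3) := by
              ring
          _ ≤ (n : ℝ) ^ (3 * k + 1) * √(n : ℝ) := by gcongr
          _ ≤ 4 * ((n : ℝ) ^ (3 * k + 1) * √(n : ℝ)) := by
            have : 0 ≤ (n : ℝ) ^ (3 * k + 1) * √(n : ℝ) := by positivity
            linarith
      have a3 : 4 * z ^ 3 / 16 ≤ w * z ^ 3 / 16 := by gcongr
      linarith
    calc (w + w ^ 2) * ((Small (Fin n) (2 * k + 1)).card : ℝ) * (w ^ 2 * z) +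
          w * ((Small (Fin n) k).card : ℝ) * (w ^ 2 * z) ^ 2 +
          w ^ 5 * ((Small (Fin n) (3 * k + 1)).card : ℝ)
        ≤ (w + w ^ 2) * (2 * z ^ 2) * (w ^ 2 * z) + w * (w * z / 16) * (w ^ 2 * z) ^ 2 +
          w ^ 5 * (w * z ^ 3 / 16) := by gcongr
      _ = (2 + 2 * w + w ^ 3 / 8) * (w ^ 3 * z ^ 3) := by ring
      _ ≤ (w ^ 3 / 2) * (w ^ 3 * z ^ 3) := by
          apply mul_le_mul_of_nonneg_right _ (by positivity)
          nlinarith [mul_nonneg hw0 hw0, mul_le_mul_of_nonneg_left hw16 (mul_nonneg hw0 hw0),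
            mul_le_mul_of_nonneg_left hw16 hw0]
      _ = (w ^ 2 * z) ^ 3 / 2 := by ring

theorem ratio_tendsto (m : ℕ) : Tendsto (fun n : ℕ => ((n : ℝ) + 1) ^ m / (n : ℝ) ^ m) atTop
    (𝓝 1) := by
  have h1 : Tendsto (fun n : ℕ => 1 + 1 / (n : ℝ)) atTop (𝓝 (1 + 0)) :=
    tendsto_const_nhds.add tendsto_one_div_atTop_nhds_zero_nat
  have h2 := h1.pow m
  rw [add_zero, one_pow] at h2
  refine h2.congr' ?_
  filter_upwards [eventually_ge_atTop 1] with n hn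
  have hn0 : (0 : ℝ) < (n : ℝ) := by exact_mod_cast (by omega : 0 < n)
  rw [← div_pow]
  congr 1
  field_simp

theorem upper_one_asym (k : ℕ) (ε : ℝ) (hε : 0 < ε) : ∀ᶠ n : ℕ in atTop,
    (U2 n (3 * k + 1) : ℝ) / (n : ℝ) ^ (2 * k + 1) ≤
      (1 + ε) * ((k.factorial : ℝ) / ((3 * k + 1).factorial : ℝ)) := by
  have hc : (0 : ℝ) < ((3 * k + 1).choose (2 * k + 1) : ℝ) := by
    exact_mod_cast Nat.choose_pos (by omega)
  have hfk : (0 : ℝ) < (k.factorial : ℝ) := by exact_mod_cast Nat.factorial_pos _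
  have hfr : (0 : ℝ) < ((3 * k + 1).factorial : ℝ) := by exact_mod_cast Nat.factorial_pos _
  have hf2 : (0 : ℝ) < ((2 * k + 1).factorial : ℝ) := by exact_mod_cast Nat.factorial_pos _
  have hlim : Tendsto (fun n : ℕ => ((n.choose (2 * k + 1) : ℝ) / (n : ℝ) ^ (2 * k + 1)) /
      ((3 * k + 1).choose (2 * k + 1) : ℝ) +
      ((k : ℝ) + 1) ^ 2 * ((((n : ℝ) + 1) ^ (2 * k) / (n : ℝ) ^ (2 * k)) * (1 / (n : ℝ)))) atTop
      (𝓝 ((k.factorial : ℝ) / ((3 * k + 1).factorial : ℝ))) := by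
    have h1 := ((choose_tendsto (2 * k + 1)).div_const ((3 * k + 1).choose (2 * k + 1) : ℝ)).add
      (((ratio_tendsto (2 * k)).mul tendsto_one_div_atTop_nhds_zero_nat).const_mul
        (((k : ℝ) + 1) ^ 2))
    have h2 : 1 / ((2 * k + 1).factorial : ℝ) / ((3 * k + 1).choose (2 * k + 1) : ℝ) +
        ((k : ℝ) + 1) ^ 2 * (1 * 0) = (k.factorial : ℝ) / ((3 * k + 1).factorial : ℝ) := by
      rw [mul_zero, mul_zero, add_zero, div_div, div_eq_div_iff (by positivity) (by positivity)]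
      have := Nat.choose_mul_factorial_mul_factorial (show 2 * k + 1 ≤ 3 * k + 1 by omega)
      rw [show 3 * k + 1 - (2 * k + 1) = k by omega] at this
      have h' : ((3 * k + 1).choose (2 * k + 1) : ℝ) * ((2 * k + 1).factorial : ℝ) *
          (k.factorial : ℝ) = ((3 * k + 1).factorial : ℝ) := by exact_mod_cast this
      rw [← h']; ring
    rw [h2] at h1
    exact h1
  have hlt : (k.factorial : ℝ) / ((3 * k + 1).factorial : ℝ) <
      (1 + ε) * ((k.factorial : ℝ) / ((3 * k + 1).factorial : ℝ)) := by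
    have : 0 < (k.factorial : ℝ) / ((3 * k + 1).factorial : ℝ) := by positivity
    nlinarith
  filter_upwards [hlim.eventually (eventually_lt_nhds hlt), eventually_ge_atTop 1] with n h1 h2
  have hn0 : (0 : ℝ) < (n : ℝ) := by exact_mod_cast (by omega : 0 < n)
  refine le_trans ?_ h1.le
  have hub : (U2 n (3 * k + 1) : ℝ) * ((3 * k + 1).choose (2 * k + 1) : ℝ) ≤
      (n.choose (2 * k + 1) : ℝ) + ((3 * k + 1).choose (2 * k + 1) : ℝ) *
        (((k : ℝ) + 1) * ((n : ℝ) + 1) ^ k) ^ 2 := by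
    exact_mod_cast upper_one n k
  have hub' : (U2 n (3 * k + 1) : ℝ) ≤ (n.choose (2 * k + 1) : ℝ) /
      ((3 * k + 1).choose (2 * k + 1) : ℝ) + (((k : ℝ) + 1) * ((n : ℝ) + 1) ^ k) ^ 2 := by
    rw [← sub_nonneg] at hub ⊢
    have e : ((n.choose (2 * k + 1) : ℝ) /
      ((3 * k + 1).choose (2 * k + 1) : ℝ) + (((k : ℝ) + 1) * ((n : ℝ) + 1) ^ k) ^ 2 -
      (U2 n (3 * k + 1) : ℝ)) = ((n.choose (2 * k + 1) : ℝ) +
        ((3 * k + 1).choose (2 * k + 1) : ℝ) * (((k : ℝ) + 1) * ((n : ℝ) + 1) ^ k) ^ 2 -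
        (U2 n (3 * k + 1) : ℝ) * ((3 * k + 1).choose (2 * k + 1) : ℝ)) /
        ((3 * k + 1).choose (2 * k + 1) : ℝ) := by
      field_simp
    rw [e]
    positivity
  rw [div_le_iff₀ (by positivity)]
  refine hub'.trans (le_of_eq ?_)
  have hA : ((n.choose (2 * k + 1) : ℝ) / (n : ℝ) ^ (2 * k + 1)) /
      ((3 * k + 1).choose (2 * k + 1) : ℝ) * (n : ℝ) ^ (2 * k + 1) =
      (n.choose (2 * k + 1) : ℝ) / ((3 * k + 1).choose (2 * k + 1) : ℝ) := by
    have hne : (n : ℝ) ^ (2 * k + 1) ≠ 0 := by positivity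
    generalize (n : ℝ) ^ (2 * k + 1) = T at hne
    field_simp
  have hB : ((k : ℝ) + 1) ^ 2 * ((((n : ℝ) + 1) ^ (2 * k) / (n : ℝ) ^ (2 * k)) * (1 / (n : ℝ))) *
      (n : ℝ) ^ (2 * k + 1) = (((k : ℝ) + 1) * ((n : ℝ) + 1) ^ k) ^ 2 := by
    rw [pow_succ (n : ℝ) (2 * k), mul_pow, ← pow_mul, mul_comm k 2]
    have hne : (n : ℝ) ^ (2 * k) ≠ 0 := by positivity
    generalize (n : ℝ) ^ (2 * k) = T at hne
    generalize ((n : ℝ) + 1) ^ (2 * k) = T'
    field_simp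
  rw [← hA, ← hB, ← add_mul]

theorem upper_two_asym (k : ℕ) (ε : ℝ) (hε : 0 < ε) : ∀ᶠ n : ℕ in atTop,
    (U2 n (3 * k + 2) : ℝ) / ((n : ℝ) ^ (2 * k + 1) * √(n : ℝ)) ≤
      (1 + ε) * (√((2 * k + 1).factorial : ℝ) / ((3 * k + 2).factorial : ℝ)) := by
  have hc : (0 : ℝ) < ((3 * k + 2).choose (k + 1) : ℝ) := by
    exact_mod_cast Nat.choose_pos (by omega)
  have hfk : (0 : ℝ) < ((k + 1).factorial : ℝ) := by exact_mod_cast Nat.factorial_pos _
  have hfr : (0 : ℝ) < ((3 * k + 2).factorial : ℝ) := by exact_mod_cast Nat.factorial_pos _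
  have hf2 : (0 : ℝ) < ((2 * k + 1).factorial : ℝ) := by exact_mod_cast Nat.factorial_pos _
  set κ : ℝ := √((2 * k + 1).factorial : ℝ) with hκdef
  have hκ : 0 < κ := Real.sqrt_pos.mpr hf2
  have hκ2 : κ * κ = ((2 * k + 1).factorial : ℝ) := Real.mul_self_sqrt hf2.le
  have hsq : Tendsto (fun n : ℕ => √(n : ℝ)) atTop atTop :=
    Real.tendsto_sqrt_atTop.comp tendsto_natCast_atTop_atTop
  have hlim : Tendsto (fun n : ℕ => (((n.choose (2 * k + 1) : ℝ) / (n : ℝ) ^ (2 * k + 1)) *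
      (√(n : ℝ))⁻¹ + √((n.choose (2 * k + 1) : ℝ) / (n : ℝ) ^ (2 * k + 1)) *
      ((n.choose (k + 1) : ℝ) / (n : ℝ) ^ (k + 1))) / ((3 * k + 2).choose (k + 1) : ℝ)) atTop
      (𝓝 (κ / ((3 * k + 2).factorial : ℝ))) := by
    have h1 := (((choose_tendsto (2 * k + 1)).mul hsq.inv_tendsto_atTop).add
      ((choose_tendsto (2 * k + 1)).sqrt.mul (choose_tendsto (k + 1)))).div_const
      ((3 * k + 2).choose (k + 1) : ℝ)
    have h2 : (1 / ((2 * k + 1).factorial : ℝ) * 0 + √(1 / ((2 * k + 1).factorial : ℝ)) *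
        (1 / ((k + 1).factorial : ℝ))) / ((3 * k + 2).choose (k + 1) : ℝ) =
        κ / ((3 * k + 2).factorial : ℝ) := by
      have := Nat.choose_mul_factorial_mul_factorial (show k + 1 ≤ 3 * k + 2 by omega)
      rw [show 3 * k + 2 - (k + 1) = 2 * k + 1 by omega] at this
      have h' : ((3 * k + 2).choose (k + 1) : ℝ) * ((k + 1).factorial : ℝ) *
          ((2 * k + 1).factorial : ℝ) = ((3 * k + 2).factorial : ℝ) := by exact_mod_cast this
      rw [mul_zero, zero_add, Real.sqrt_div zero_le_one, Real.sqrt_one, ← hκdef, ← h', ← hκ2]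
      field_simp
    rw [h2] at h1
    exact h1
  have hlt : κ / ((3 * k + 2).factorial : ℝ) < (1 + ε) * (κ / ((3 * k + 2).factorial : ℝ)) := by
    have : 0 < κ / ((3 * k + 2).factorial : ℝ) := by positivity
    nlinarith
  filter_upwards [hlim.eventually (eventually_lt_nhds hlt), eventually_ge_atTop 1] with n h1 h2
  have hn0 : (0 : ℝ) < (n : ℝ) := by exact_mod_cast (by omega : 0 < n)
  have hs0 : 0 < √(n : ℝ) := Real.sqrt_pos.mpr hn0
  have hs2 : √(n : ℝ) * √(n : ℝ) = (n : ℝ) := Real.mul_self_sqrt hn0.le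
  refine le_trans ?_ h1.le
  set D : ℝ := (U2 n (3 * k + 2) : ℝ) * ((3 * k + 2).choose (k + 1) : ℝ) with hD
  set NT : ℝ := (n.choose (2 * k + 1) : ℝ) with hNT
  set NX : ℝ := (n.choose (k + 1) : ℝ) with hNX
  have hD0 : 0 ≤ D := by positivity
  have hNT0 : 0 ≤ NT := Nat.cast_nonneg _
  have hNX0 : 0 ≤ NX := Nat.cast_nonneg _
  have hub : D ^ 2 ≤ NT * (NX ^ 2 + D) := by
    rw [hD, hNT, hNX]
    exact_mod_cast upper_two n k
  have hs : √NT * √NT = NT := Real.mul_self_sqrt hNT0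
  have hsn : 0 ≤ √NT := Real.sqrt_nonneg _
  have hDle : D ≤ NT + √NT * NX := by
    by_contra hcon
    push Not at hcon
    have e1 : √NT * NX < D - NT := by linarith
    have e2 : 0 ≤ √NT * NX := by positivity
    have e3 : (NT + √NT * NX) * (√NT * NX) ≤ D * (D - NT) := by
      apply mul_le_mul hcon.le e1.le e2 hD0
    have e4 : (NT + √NT * NX) * (√NT * NX) = NT * (√NT * NX) + NT * NX ^ 2 := by
      calc (NT + √NT * NX) * (√NT * NX) = NT * (√NT * NX) + (√NT * √NT) * NX ^ 2 := by ring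
        _ = _ := by rw [hs]
    rcases eq_or_lt_of_le (show 0 ≤ NT * (√NT * NX) by positivity) with h0 | h0
    · -- then everything degenerate
      have e5 : D * (D - NT) ≤ NT * NX ^ 2 := by nlinarith
      have e6 : (NT + √NT * NX) * (√NT * NX) = NT * NX ^ 2 := by rw [e4, ← h0, zero_add]
      have hpos : 0 < D - NT := lt_of_le_of_lt e2 e1
      have hDpos : 0 < D := by linarith
      have e7 : (NT + √NT * NX) * (√NT * NX) < D * (D - NT) := by
        calc (NT + √NT * NX) * (√NT * NX) ≤ (NT + √NT * NX) * (D - NT) := by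
              apply mul_le_mul_of_nonneg_left e1.le (by positivity)
          _ < D * (D - NT) := by
              apply mul_lt_mul_of_pos_right hcon hpos
      rw [e6] at e7
      linarith
    · rw [e4] at e3
      nlinarith
  have hfin : (U2 n (3 * k + 2) : ℝ) ≤ (NT + √NT * NX) / ((3 * k + 2).choose (k + 1) : ℝ) := by
    rw [le_div_iff₀ hc]; exact hDle
  rw [div_le_iff₀ (by positivity)]
  refine hfin.trans (le_of_eq ?_)
  rw [Real.sqrt_div hNT0]
  have hp : √((n : ℝ) ^ (2 * k + 1)) = (n : ℝ) ^ k * √(n : ℝ) := by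
    rw [show (n : ℝ) ^ (2 * k + 1) = ((n : ℝ) ^ k) ^ 2 * (n : ℝ) by ring,
      Real.sqrt_mul (by positivity), Real.sqrt_sq (by positivity)]
  rw [hp, div_mul_eq_mul_div]
  congr 1
  rw [add_mul]
  congr 1
  · field_simp
  · have e : (n : ℝ) ^ (2 * k + 1) * √(n : ℝ) = ((n : ℝ) ^ k * √(n : ℝ)) * (n : ℝ) ^ (k + 1) := by
      ring
    rw [e]
    field_simp

theorem alphaExp_one (k : ℕ) : alphaExp (3 * k + 1) = ((2 * k + 1 : ℕ) : ℝ) := by
  unfold alphaExp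
  have : (4 * ((3 * k + 1 : ℕ) : ℝ)) / 3 = ((4 * k + 1 : ℤ) : ℝ) + 1 / 3 := by
    push_cast; ring
  rw [this]
  have h2 : ⌈((4 * k + 1 : ℤ) : ℝ) + 1 / 3⌉ = 4 * (k : ℤ) + 2 := by
    rw [Int.ceil_eq_iff]
    push_cast
    constructor <;> linarith
  rw [h2]
  push_cast
  ring

theorem alphaExp_two (k : ℕ) : alphaExp (3 * k + 2) = ((2 * k + 1 : ℕ) : ℝ) + 1 / 2 := by
  unfold alphaExp
  have : (4 * ((3 * k + 2 : ℕ) : ℝ)) / 3 = ((4 * k + 2 : ℤ) : ℝ) + 2 / 3 := by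
    push_cast; ring
  rw [this]
  have h2 : ⌈((4 * k + 2 : ℤ) : ℝ) + 2 / 3⌉ = 4 * (k : ℤ) + 3 := by
    rw [Int.ceil_eq_iff]
    push_cast
    constructor <;> linarith
  rw [h2]
  push_cast
  ring

theorem pow_one_alpha (n k : ℕ) : (n : ℝ) ^ alphaExp (3 * k + 1) = (n : ℝ) ^ (2 * k + 1) := by
  rw [alphaExp_one, Real.rpow_natCast]

theorem pow_two_alpha (n k : ℕ) (hn : 1 ≤ n) :
    (n : ℝ) ^ alphaExp (3 * k + 2) = (n : ℝ) ^ (2 * k + 1) * √(n : ℝ) := by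
  have hn0 : (0 : ℝ) < (n : ℝ) := by exact_mod_cast (by omega : 0 < n)
  rw [alphaExp_two, Real.rpow_add hn0, Real.rpow_natCast, Real.sqrt_eq_rpow]

/-- two-sided bound, `r = 3k+1` -/
theorem two_sided_one (k : ℕ) (hk : 1 ≤ k) (ε : ℝ) (hε : 0 < ε) : ∀ᶠ n : ℕ in atTop,
    (1 - ε) * ((k.factorial : ℝ) / (4 ^ (3 * k + 2) * ((3 * k + 1).factorial : ℝ))) ≤
      (U2 n (3 * k + 1) : ℝ) / (n : ℝ) ^ alphaExp (3 * k + 1) ∧
    (U2 n (3 * k + 1) : ℝ) / (n : ℝ) ^ alphaExp (3 * k + 1) ≤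
      (1 + ε) * ((k.factorial : ℝ) / ((3 * k + 1).factorial : ℝ)) := by
  filter_upwards [lower_one k hk ε hε, upper_one_asym k ε hε] with n h1 h2
  rw [pow_one_alpha]
  exact ⟨h1, h2⟩

/-- two-sided bound, `r = 3k+2` -/
theorem two_sided_two (k : ℕ) (ε : ℝ) (hε : 0 < ε) : ∀ᶠ n : ℕ in atTop,
    (1 - ε) * (√((2 * k + 1).factorial : ℝ) /
      (4 ^ (3 * k + 3) * ((3 * k + 2).factorial : ℝ))) ≤
      (U2 n (3 * k + 2) : ℝ) / (n : ℝ) ^ alphaExp (3 * k + 2) ∧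
    (U2 n (3 * k + 2) : ℝ) / (n : ℝ) ^ alphaExp (3 * k + 2) ≤
      (1 + ε) * (√((2 * k + 1).factorial : ℝ) / ((3 * k + 2).factorial : ℝ)) := by
  filter_upwards [lower_two k ε hε, upper_two_asym k ε hε, eventually_ge_atTop 1] with n h1 h2 h3
  rw [pow_two_alpha n k h3]
  exact ⟨h1, h2⟩

/-- bounded oscillation for every `r` -/
theorem oscillation (r : ℕ) (hr : 2 ≤ r) : ∃ c : ℝ, 0 < c ∧ ∀ ε : ℝ, 0 < ε →
    ∀ᶠ n : ℕ in atTop, (1 - ε) * c ≤ (U2 n r : ℝ) / (n : ℝ) ^ alphaExp r ∧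
      (U2 n r : ℝ) / (n : ℝ) ^ alphaExp r ≤ (1 + ε) * (4 ^ (r + 1) * c) := by
  have h3 : r % 3 = 0 ∨ r % 3 = 1 ∨ r % 3 = 2 := by omega
  rcases h3 with h | h | h
  · obtain ⟨L, hL, hT, -⟩ := limit_main r hr (Nat.dvd_of_mod_eq_zero h)
    refine ⟨L, hL, fun ε hε => ?_⟩
    have e1 : (1 - ε) * L < L := by nlinarith
    have e2 : L < (1 + ε) * (4 ^ (r + 1) * L) := by
      have : (1 : ℝ) ≤ 4 ^ (r + 1) := one_le_pow₀ (by norm_num)
      have h4 : L ≤ 4 ^ (r + 1) * L := by nlinarith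
      nlinarith
    filter_upwards [hT.eventually (eventually_gt_nhds e1), hT.eventually (eventually_lt_nhds e2)]
      with n h1 h2
    exact ⟨h1.le, h2.le⟩
  · obtain ⟨k, rfl⟩ : ∃ k, r = 3 * k + 1 := ⟨r / 3, by omega⟩
    have hk : 1 ≤ k := by omega
    have hfk : (0 : ℝ) < (k.factorial : ℝ) := by exact_mod_cast Nat.factorial_pos _
    have hfr : (0 : ℝ) < ((3 * k + 1).factorial : ℝ) := by exact_mod_cast Nat.factorial_pos _
    refine ⟨(k.factorial : ℝ) / (4 ^ (3 * k + 2) * ((3 * k + 1).factorial : ℝ)), by positivity,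
      fun ε hε => ?_⟩
    filter_upwards [two_sided_one k hk ε hε] with n hn
    refine ⟨hn.1, hn.2.trans (le_of_eq ?_)⟩
    rw [show 3 * k + 1 + 1 = 3 * k + 2 by ring]
    field_simp
  · obtain ⟨k, rfl⟩ : ∃ k, r = 3 * k + 2 := ⟨r / 3, by omega⟩
    have hfk : (0 : ℝ) < √((2 * k + 1).factorial : ℝ) :=
      Real.sqrt_pos.mpr (by exact_mod_cast Nat.factorial_pos _)
    have hfr : (0 : ℝ) < ((3 * k + 2).factorial : ℝ) := by exact_mod_cast Nat.factorial_pos _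
    refine ⟨√((2 * k + 1).factorial : ℝ) / (4 ^ (3 * k + 3) * ((3 * k + 2).factorial : ℝ)),
      by positivity, fun ε hε => ?_⟩
    filter_upwards [two_sided_two k ε hε] with n hn
    refine ⟨hn.1, hn.2.trans (le_of_eq ?_)⟩
    rw [show 3 * k + 2 + 1 = 3 * k + 3 by ring]
    field_simp

end Pool.Agent.helper30.UF
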