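import Pool.Agent.helper30.UF.Prob

/-!
# Independence of the indicator vectors of the sets in a forbidden configuration
-/

set_option autoImplicit false

namespace Pool.Agent.helper30.UF

open Finset

variable {V : Type*} [DecidableEq V] {F : Type*} [Field F]

theorem exists_diff {A B : Finset V} (hc : A.card = B.card) (h : A ≠ B) :
    ∃ x, x ∈ A ∧ x ∉ B := by
  by_contra hcon
  push Not at hcon
  exact h (Finset.eq_of_subset_of_card_le hcon hc.ge)

theorem indep_one (A : Finset V) (h : A.Nonempty) : Indep F ![A] := by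
  intro l hl
  obtain ⟨v, hv⟩ := h
  have := hl v
  simp [ind, hv] at this
  funext i
  fin_cases i
  simpa using this

theorem indep_two (A C : Finset V) (hc : A.card = C.card) (hne : A ≠ C) : Indep F ![A, C] := by
  intro l hl
  obtain ⟨v, hv, hv'⟩ := exists_diff hc hne
  obtain ⟨u, hu, hu'⟩ := exists_diff hc.symm hne.symm
  have h1 := hl v
  have h2 := hl u
  simp [Fin.sum_univ_two, ind, hv, hv'] at h1
  simp [Fin.sum_univ_two, ind, hu, hu'] at h2
  funext i
  fin_cases i
  · simpa using h1
  · simpa using h2

theorem core_three (h2 : (2 : F) ≠ 0) (A B D : Finset V) (hAB : A.card = B.card)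
    (hAD : A.card = D.card) (nAB : A ≠ B) (nBD : B ≠ D) (hU : A ∪ B = A ∪ D) (a b d : F)
    (h : ∀ x, a * ind A x + b * ind B x + d * ind D x = 0) : a = 0 ∧ b = 0 ∧ d = 0 := by
  obtain ⟨x, hxB, hxD⟩ := exists_diff (hAB.symm.trans hAD) nBD
  obtain ⟨y, hyD, hyB⟩ := exists_diff (hAB.symm.trans hAD).symm nBD.symm
  obtain ⟨z, hzB, hzA⟩ := exists_diff hAB.symm nAB.symm
  have hxA : x ∈ A := by
    have : x ∈ A ∪ D := hU ▸ mem_union_right _ hxB
    rcases mem_union.mp this with h | h
    · exact h
    · exact absurd h hxD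
  have hyA : y ∈ A := by
    have : y ∈ A ∪ B := hU.symm ▸ mem_union_right _ hyD
    rcases mem_union.mp this with h | h
    · exact h
    · exact absurd h hyB
  have hzD : z ∈ D := by
    have : z ∈ A ∪ D := hU ▸ mem_union_right _ hzB
    rcases mem_union.mp this with h | h
    · exact absurd h hzA
    · exact h
  have e1 := h x
  have e2 := h y
  have e3 := h z
  simp only [ind, hxA, hxB, hxD, if_true, if_false, mul_one, mul_zero, add_zero] at e1
  simp only [ind, hyA, hyB, hyD, if_true, if_false, mul_one, mul_zero, add_zero] at e2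
  simp only [ind, hzA, hzB, hzD, if_true, if_false, mul_one, mul_zero, zero_add] at e3
  have ha : a = 0 := by
    have : 2 * a = 0 := by linear_combination e1 + e2 - e3
    exact (mul_eq_zero.mp this).resolve_left h2
  subst ha
  exact ⟨rfl, by linear_combination e1, by linear_combination e2⟩

theorem indep_three (h2 : (2 : F) ≠ 0) (A B D : Finset V) (hAB : A.card = B.card)
    (hAD : A.card = D.card) (nAB : A ≠ B) (nBD : B ≠ D) (hU : A ∪ B = A ∪ D) :
    Indep F ![A, B, D] := by
  intro l hl
  obtain ⟨e1, e2, e3⟩ := core_three h2 A B D hAB hAD nAB nBD hU (l 0) (l 1) (l 2) (by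
    intro x
    have := hl x
    rw [Fin.sum_univ_three] at this
    simpa using this)
  funext i
  fin_cases i
  · exact e1
  · exact e2
  · exact e3

theorem core_four (h2 : (2 : F) ≠ 0) (h3 : (3 : F) ≠ 0) (A B C D : Finset V)
    (hAB : A.card = B.card) (hAC : A.card = C.card) (hCD : C.card = D.card)
    (nAB : A ≠ B) (nAC : A ≠ C) (nCD : C ≠ D) (hU : A ∪ B = C ∪ D)
    (v : V) (vA : v ∈ A) (vB : v ∈ B) (vC : v ∈ C) (vD : v ∉ D)
    (u : V) (uA : u ∈ A) (uB : u ∉ B) (uC : u ∈ C) (uD : u ∈ D) (a b c d : F)
    (h : ∀ x, a * ind A x + b * ind B x + c * ind C x + d * ind D x = 0) :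
    a = 0 ∧ b = 0 ∧ c = 0 ∧ d = 0 := by
  have e1 := h v
  have e2 := h u
  simp only [ind, vA, vB, vC, vD, if_true, if_false, mul_one, mul_zero, add_zero] at e1
  simp only [ind, uA, uB, uC, uD, if_true, if_false, mul_one, mul_zero, add_zero] at e2
  have hbd : d = b := by linear_combination e2 - e1
  subst hbd
  have hmem1 : ∀ x, x ∈ A ∨ x ∈ B → x ∈ C ∨ x ∈ D := by
    intro x hx
    exact mem_union.mp (hU ▸ mem_union.mpr hx)
  have hmem2 : ∀ x, x ∈ C ∨ x ∈ D → x ∈ A ∨ x ∈ B := by
    intro x hx
    exact mem_union.mp (hU.symm ▸ mem_union.mpr hx)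
  by_cases hb : d = 0
  · subst hb
    have ha : a = 0 := by
      by_contra ha
      apply nAC
      refine Finset.eq_of_subset_of_card_le ?_ hAC.ge
      intro x hx
      by_contra hxC
      have e3 := h x
      simp only [ind, hx, hxC, if_true, if_false, mul_one, mul_zero, add_zero, zero_mul] at e3
      exact ha e3
    subst ha
    exact ⟨rfl, rfl, by linear_combination e1, rfl⟩
  · exfalso
    obtain ⟨y, hyB, hyA⟩ := exists_diff hAB.symm nAB.symm
    obtain ⟨z, hzD, hzC⟩ := exists_diff hCD.symm nCD.symm
    have e3 := h y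
    have e4 := h z
    have two : ∀ w : F, 2 * w = 0 → w = 0 := fun w hw => (mul_eq_zero.mp hw).resolve_left h2
    have three : ∀ w : F, 3 * w = 0 → w = 0 := fun w hw => (mul_eq_zero.mp hw).resolve_left h3
    have hy : 2 * d + c = 0 ∨ d + c = 0 := by
      rcases hmem1 y (Or.inr hyB) with hyC | hyD
      · by_cases hyD : y ∈ D
        · left
          simp only [ind, hyA, hyB, hyC, hyD, if_true, if_false, mul_one, mul_zero] at e3
          linear_combination e3
        · right
          simp only [ind, hyA, hyB, hyC, hyD, if_true, if_false, mul_one, mul_zero] at e3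
          linear_combination e3
      · by_cases hyC : y ∈ C
        · left
          simp only [ind, hyA, hyB, hyC, hyD, if_true, if_false, mul_one, mul_zero] at e3
          linear_combination e3
        · exfalso
          simp only [ind, hyA, hyB, hyC, hyD, if_true, if_false, mul_one, mul_zero] at e3
          exact hb (two d (by linear_combination e3))
    have hz : a + 2 * d = 0 ∨ a + d = 0 := by
      rcases hmem2 z (Or.inr hzD) with hzA | hzB
      · by_cases hzB : z ∈ B
        · left
          simp only [ind, hzA, hzB, hzC, hzD, if_true, if_false, mul_one, mul_zero] at e4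
          linear_combination e4
        · right
          simp only [ind, hzA, hzB, hzC, hzD, if_true, if_false, mul_one, mul_zero] at e4
          linear_combination e4
      · by_cases hzA : z ∈ A
        · left
          simp only [ind, hzA, hzB, hzC, hzD, if_true, if_false, mul_one, mul_zero] at e4
          linear_combination e4
        · exfalso
          simp only [ind, hzA, hzB, hzC, hzD, if_true, if_false, mul_one, mul_zero] at e4
          exact hb (two d (by linear_combination e4))
    rcases hy with hy | hy <;> rcases hz with hz | hz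
    · exact hb (three d (by linear_combination hy + hz - e1))
    · exact hb (two d (by linear_combination hy + hz - e1))
    · exact hb (two d (by linear_combination hy + hz - e1))
    · exact hb (by linear_combination hy + hz - e1)

theorem indep_four (h2 : (2 : F) ≠ 0) (h3 : (3 : F) ≠ 0) (A B C D : Finset V)
    (hAB : A.card = B.card) (hAC : A.card = C.card) (hAD : A.card = D.card)
    (nAB : A ≠ B) (nAC : A ≠ C) (nAD : A ≠ D) (nBC : B ≠ C) (nBD : B ≠ D) (nCD : C ≠ D)
    (hU : A ∪ B = C ∪ D) (hI : A ∩ B ≠ C ∩ D) : Indep F ![A, B, C, D] := by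
  intro l hl
  have hcard : (A ∩ B).card = (C ∩ D).card := by
    have h1 := Finset.card_union_add_card_inter A B
    have h2 := Finset.card_union_add_card_inter C D
    rw [hU] at h1
    omega
  obtain ⟨v, hv, hv'⟩ := exists_diff hcard hI
  obtain ⟨u, hu, hu'⟩ := exists_diff hcard.symm hI.symm
  obtain ⟨vA, vB⟩ := mem_inter.mp hv
  obtain ⟨uC, uD⟩ := mem_inter.mp hu
  have vU : v ∈ C ∨ v ∈ D := mem_union.mp (hU ▸ mem_union_left _ vA)
  have uU : u ∈ A ∨ u ∈ B := mem_union.mp (hU.symm ▸ mem_union_left _ uC)
  have key : ∀ x, l 0 * ind A x + l 1 * ind B x + l 2 * ind C x + l 3 * ind D x = 0 := by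
    intro x
    have := hl x
    rw [Fin.sum_univ_four] at this
    simpa using this
  have fin : l 0 = 0 ∧ l 1 = 0 ∧ l 2 = 0 ∧ l 3 = 0 := by
    by_cases vC : v ∈ C
    · have vD : v ∉ D := fun h => hv' (mem_inter.mpr ⟨vC, h⟩)
      by_cases uA : u ∈ A
      · have uB : u ∉ B := fun h => hu' (mem_inter.mpr ⟨uA, h⟩)
        exact core_four h2 h3 A B C D hAB hAC (hAC.symm.trans hAD) nAB nAC nCD hU v vA vB vC vD
          u uA uB uC uD _ _ _ _ key
      · have uB : u ∈ B := uU.resolve_left uA
        obtain ⟨a, b, c, d⟩ := core_four h2 h3 B A C D hAB.symm (hAB.symm.trans hAC)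
          (hAC.symm.trans hAD) nAB.symm nBC nCD ((union_comm _ _).trans hU) v vB vA vC vD
          u uB uA uC uD (l 1) (l 0) (l 2) (l 3) (fun x => by linear_combination key x)
        exact ⟨b, a, c, d⟩
    · have vD : v ∈ D := vU.resolve_left vC
      by_cases uA : u ∈ A
      · have uB : u ∉ B := fun h => hu' (mem_inter.mpr ⟨uA, h⟩)
        obtain ⟨a, b, c, d⟩ := core_four h2 h3 A B D C hAB hAD (hAD.symm.trans hAC) nAB nAD
          nCD.symm (hU.trans (union_comm _ _)) v vA vB vD vC
          u uA uB uD uC (l 0) (l 1) (l 3) (l 2) (fun x => by linear_combination key x)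
        exact ⟨a, b, d, c⟩
      · have uB : u ∈ B := uU.resolve_left uA
        obtain ⟨a, b, c, d⟩ := core_four h2 h3 B A D C hAB.symm (hAB.symm.trans hAD)
          (hAD.symm.trans hAC) nAB.symm nBD nCD.symm
          ((union_comm _ _).trans (hU.trans (union_comm _ _))) v vB vA vD vC
          u uB uA uD uC (l 1) (l 0) (l 3) (l 2) (fun x => by linear_combination key x)
        exact ⟨b, a, d, c⟩
  obtain ⟨a, b, c, d⟩ := fin
  funext i
  fin_cases i
  · exact a
  · exact b
  · exact c
  · exact d

end Pool.Agent.helper30.UF
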