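import Pool.Agent.helper30.UF.Indep
import Pool.Agent.helper27.UF.Final

/-!
# The deterministic inequality obtained from the random quadratic labelling
-/

set_option autoImplicit false

namespace Pool.Agent.helper30.UF

open Finset Pool.Agent.helper27.UF

/-- small subsets -/
def Small (V : Type*) [Fintype V] [DecidableEq V] (m : ℕ) : Finset (Finset V) :=
  univ.filter (fun X => X.card ≤ m)

theorem union_bound {Ω K : Type*} [Fintype Ω] (S : Finset K) (E : K → Ω → Prop)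
    (P : Ω → Prop) [DecidablePred P] [∀ c, DecidablePred (E c)]
    (h : ∀ ω, P ω → ∃ c ∈ S, E c ω) (w M : ℕ)
    (hE : ∀ c ∈ S, (univ.filter (E c)).card * w ≤ M) :
    (univ.filter P).card * w ≤ S.card * M := by
  classical
  have h1 : univ.filter P ⊆ S.biUnion (fun c => univ.filter (E c)) := by
    intro ω hω
    obtain ⟨c, hc, hcE⟩ := h ω (mem_filter.mp hω).2
    exact mem_biUnion.mpr ⟨c, hc, mem_filter.mpr ⟨mem_univ _, hcE⟩⟩
  calc (univ.filter P).card * w ≤ (∑ c ∈ S, (univ.filter (E c)).card) * w :=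
        Nat.mul_le_mul_right _ ((Finset.card_le_card h1).trans Finset.card_biUnion_le)
    _ = ∑ c ∈ S, (univ.filter (E c)).card * w := Finset.sum_mul _ _ _
    _ ≤ ∑ _c ∈ S, M := Finset.sum_le_sum hE
    _ = S.card * M := by rw [Finset.sum_const, smul_eq_mul]

section

variable {V : Type*} [Fintype V] [DecidableEq V] {F : Type*} [Field F] [Fintype F] [DecidableEq F]

/-- collision -/
def Bad1 (t : ℕ) (ω : (V → F) × (V → F)) (A : Finset V) : Prop :=
  ∃ Q Q' : Finset V, Q ⊆ A ∧ Disjoint Q' A ∧ Q'.Nonempty ∧ Q'.card ≤ t ∧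
    (∑ v ∈ Q, ω.1 v = ∑ v ∈ Q', ω.1 v) ∧ (∑ v ∈ Q, ω.2 v = ∑ v ∈ Q', ω.2 v)

/-- large intersection -/
def Bad2 (r t : ℕ) (ω : (V → F) × (V → F)) (A : Finset V) : Prop :=
  ∃ C : Finset V, C.card = r ∧ A ≠ C ∧ t + 1 ≤ (A ∩ C).card ∧ Phi ω C = 0

/-- three edges -/
def Bad3 (r t : ℕ) (ω : (V → F) × (V → F)) (A : Finset V) : Prop :=
  ∃ B D : Finset V, B.card = r ∧ D.card = r ∧ A ≠ B ∧ B ≠ D ∧ A ∪ B = A ∪ D ∧
    (B ∩ D).card ≤ t ∧ Phi ω B = 0 ∧ Phi ω D = 0

/-- four edges -/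
def Bad4 (r : ℕ) (ω : (V → F) × (V → F)) (A : Finset V) : Prop :=
  ∃ B C D : Finset V, B.card = r ∧ C.card = r ∧ D.card = r ∧ A ≠ B ∧ A ≠ C ∧ A ≠ D ∧ B ≠ C ∧
    B ≠ D ∧ C ≠ D ∧ A ∪ B = C ∪ D ∧ A ∩ B ≠ C ∩ D ∧ Phi ω B = 0 ∧ Phi ω C = 0 ∧ Phi ω D = 0

/-- good edge -/
def Good (r t : ℕ) (ω : (V → F) × (V → F)) (A : Finset V) : Prop :=
  A.card = r ∧ Phi ω A = 0 ∧ ¬ Bad1 t ω A ∧ ¬ Bad2 r t ω A ∧ ¬ Bad3 r t ω A ∧ ¬ Bad4 r ω A

theorem eq_of_union_self {A C D : Finset V} {r : ℕ} (hA : A.card = r) (hC : C.card = r)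
    (hD : D.card = r) (h : A = C ∪ D) : A = C ∧ A = D := by
  constructor
  · exact (Finset.eq_of_subset_of_card_le (h ▸ subset_union_left) (by omega)).symm
  · exact (Finset.eq_of_subset_of_card_le (h ▸ subset_union_right) (by omega)).symm

theorem good_three {r t : ℕ} {ω : (V → F) × (V → F)} {A B D : Finset V} (hA : Good r t ω A)
    (hB : Good r t ω B) (hD : Good r t ω D) (nAB : A ≠ B) (hU : A ∪ B = A ∪ D) : B = D := by
  by_contra nBD
  by_cases h : (B ∩ D).card ≤ t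
  · exact hA.2.2.2.2.1 ⟨B, D, hB.1, hD.1, nAB, nBD, hU, h, hB.2.1, hD.2.1⟩
  · exact hB.2.2.2.1 ⟨D, hD.1, nBD, by omega, hD.2.1⟩

/-- one of the two collisions -/
theorem good_coll {r t : ℕ} {ω : (V → F) × (V → F)} {A C D : Finset V} (hA : Good r t ω A)
    (hC : Good r t ω C) (hD : Good r t ω D) (nAC : A ≠ C) (nAD : A ≠ D) (hsub : A ⊆ C ∪ D)
    (hs : ∑ v ∈ A, ω.1 v = ∑ v ∈ C, ω.1 v) : False := by
  have h2 : ∑ v ∈ A, ω.2 v = ∑ v ∈ C, ω.2 v := by
    have e1 := hA.2.1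
    have e2 := hC.2.1
    simp only [Phi] at e1 e2
    rw [hs] at e1
    linear_combination e1 - e2
  have hsum : ∀ f : V → F, (∑ v ∈ A, f v = ∑ v ∈ C, f v) →
      ∑ v ∈ A \ C, f v = ∑ v ∈ C \ A, f v := by
    intro f hf
    have e1 := Finset.sum_sdiff (f := f) (inter_subset_left : A ∩ C ⊆ A)
    have e2 := Finset.sum_sdiff (f := f) (inter_subset_right : A ∩ C ⊆ C)
    rw [sdiff_inter_self_left] at e1
    rw [sdiff_inter_self_right] at e2
    linear_combination e1 - e2 + hf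
  have hcard : (A \ C).card = (C \ A).card := by
    have e1 := Finset.card_sdiff_add_card_inter A C
    have e2 := Finset.card_sdiff_add_card_inter C A
    rw [inter_comm C A] at e2
    have := hA.1
    have := hC.1
    omega
  have hne : (C \ A).Nonempty := by
    obtain ⟨x, hx, hx'⟩ := exists_diff (hC.1.trans hA.1.symm) nAC.symm
    exact ⟨x, mem_sdiff.mpr ⟨hx, hx'⟩⟩
  by_cases hx : (C \ A).card ≤ t
  · exact hA.2.2.1 ⟨A \ C, C \ A, sdiff_subset, sdiff_disjoint, hne, hx, hsum _ hs, hsum _ h2⟩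
  · refine hA.2.2.2.1 ⟨D, hD.1, nAD, ?_, hD.2.1⟩
    have hsub' : A \ C ⊆ A ∩ D := by
      intro x hx
      obtain ⟨h1, h2⟩ := mem_sdiff.mp hx
      exact mem_inter.mpr ⟨h1, (mem_union.mp (hsub h1)).resolve_left h2⟩
    have := Finset.card_le_card hsub'
    omega

theorem good_pairFree (h2 : (2 : F) ≠ 0) {r t : ℕ} {ω : (V → F) × (V → F)}
    (H : Finset (Finset V)) (hH : ∀ A ∈ H, Good r t ω A) : PairFree H := by
  intro A hA B hB C hC D hD hU
  have gA := hH A hA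
  have gB := hH B hB
  have gC := hH C hC
  have gD := hH D hD
  by_cases nAB : A = B
  · subst nAB
    rw [union_self] at hU
    obtain ⟨h1, h2⟩ := eq_of_union_self gA.1 gC.1 gD.1 hU
    exact Or.inl ⟨h1, h2⟩
  by_cases nCD : C = D
  · subst nCD
    rw [union_self] at hU
    obtain ⟨h1, h2⟩ := eq_of_union_self gC.1 gA.1 gB.1 hU.symm
    exact Or.inl ⟨h1.symm, h2.symm⟩
  by_cases nAC : A = C
  · subst nAC
    exact Or.inl ⟨rfl, good_three gA gB gD nAB hU⟩
  by_cases nAD : A = D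
  · subst nAD
    exact Or.inr ⟨rfl, good_three gA gB gC nAB (hU.trans (union_comm _ _))⟩
  by_cases nBC : B = C
  · subst nBC
    exact Or.inr ⟨good_three gB gA gD (Ne.symm nAB) ((union_comm _ _).trans hU), rfl⟩
  by_cases nBD : B = D
  · subst nBD
    exact Or.inl ⟨good_three gB gA gC (Ne.symm nAB)
      ((union_comm _ _).trans (hU.trans (union_comm _ _))), rfl⟩
  exfalso
  by_cases hI : A ∩ B = C ∩ D
  · have hsum : ∀ f : V → F, ∑ v ∈ A, f v + ∑ v ∈ B, f v = ∑ v ∈ C, f v + ∑ v ∈ D, f v := by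
      intro f
      rw [← Finset.sum_union_inter, ← Finset.sum_union_inter (s₁ := C), hU, hI]
    have e1 := hsum ω.1
    have e2 := hsum ω.2
    have p1 := gA.2.1
    have p2 := gB.2.1
    have p3 := gC.2.1
    have p4 := gD.2.1
    simp only [Phi] at p1 p2 p3 p4
    set a := ∑ v ∈ A, ω.1 v with ha
    set b := ∑ v ∈ B, ω.1 v with hb
    set c := ∑ v ∈ C, ω.1 v with hc
    set d := ∑ v ∈ D, ω.1 v with hd
    have hsq : a ^ 2 + b ^ 2 = c ^ 2 + d ^ 2 := by linear_combination p1 + p2 - p3 - p4 - e2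
    have hprod : (a - c) * (a - d) = 0 := by
      have : 2 * ((a - c) * (a - d)) = 0 := by
        have hb' : b = c + d - a := by linear_combination e1
        rw [hb'] at hsq
        linear_combination hsq
      exact (mul_eq_zero.mp this).resolve_left h2
    rcases mul_eq_zero.mp hprod with h | h
    · exact good_coll gA gC gD nAC nAD (hU ▸ subset_union_left) (sub_eq_zero.mp h)
    · exact good_coll gA gD gC nAD nAC (union_comm C D ▸ hU ▸ subset_union_left)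
        (sub_eq_zero.mp h)
  · exact gA.2.2.2.2.2 ⟨B, C, D, gB.1, gC.1, gD.1, nAB, nAC, nAD, nBC, nBD, nCD, hU, hI,
      gB.2.1, gC.2.1, gD.2.1⟩

end

end Pool.Agent.helper30.UF
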