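import Mathlib

/-!
# Random quadratic labellings: the probabilities

Every vertex `v` carries a label `(α v, β v) ∈ F²`, `F = ZMod p`. For a finite set `A` of vertices
`Phi ω A = (∑_{v ∈ A} α v)² + ∑_{v ∈ A} β v`.
-/

set_option autoImplicit false

namespace Pool.Agent.helper30.UF

open Finset

variable {V : Type*} [Fintype V] [DecidableEq V] {F : Type*} [Field F] [Fintype F] [DecidableEq F]

/-- fibres of a surjective additive map have the same size -/
theorem card_fibre {G K : Type*} [AddCommGroup G] [Fintype G] [AddCommGroup K] [Fintype K]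
    [DecidableEq K] (f : G →+ K) (hf : Function.Surjective f) (y : K) :
    (univ.filter (fun g => f g = y)).card * Fintype.card K = Fintype.card G := by
  classical
  have h1 : Fintype.card G = ∑ z : K, (univ.filter (fun g => f g = z)).card := by
    rw [← Finset.card_univ, Finset.card_eq_sum_card_fiberwise (f := f) (t := univ)]
    intro x _; exact Finset.mem_coe.mpr (mem_univ _)
  have h2 : ∀ z : K, (univ.filter (fun g => f g = z)).card =
      (univ.filter (fun g => f g = y)).card := by
    intro z
    obtain ⟨a, ha⟩ := hf (y - z)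
    refine Finset.card_bij (fun g _ => g + a) ?_ ?_ ?_
    · intro g hg
      rw [mem_filter] at hg ⊢
      exact ⟨mem_univ _, by rw [map_add, hg.2, ha]; abel⟩
    · intro g _ g' _ h
      exact add_right_cancel h
    · intro g hg
      rw [mem_filter] at hg
      exact ⟨g - a, by rw [mem_filter]; exact ⟨mem_univ _, by rw [map_sub, hg.2, ha]; abel⟩,
        sub_add_cancel _ _⟩
  rw [h1, Finset.sum_congr rfl (fun z _ => h2 z), Finset.sum_const, Finset.card_univ, smul_eq_mul,
    mul_comm]

/-- the linear map given by a family of weights -/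
def lin {ι : Type*} (a : ι → V → F) : (V → F) →ₗ[F] (ι → F) where
  toFun β := fun i => ∑ v, a i v * β v
  map_add' x y := by
    funext i
    simp only [Pi.add_apply, mul_add, Finset.sum_add_distrib]
  map_smul' c x := by
    funext i
    simp only [Pi.smul_apply, smul_eq_mul, RingHom.id_apply, Finset.mul_sum]
    refine Finset.sum_congr rfl fun v _ => by ring

theorem lin_surjective {ι : Type*} [Fintype ι] [DecidableEq ι] (a : ι → V → F)
    (h : ∀ l : ι → F, (∀ v, ∑ i, l i * a i v = 0) → l = 0) :
    Function.Surjective (lin (V := V) a) := by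
  rw [← LinearMap.dualMap_injective_iff, injective_iff_map_eq_zero]
  intro φ hφ
  have h1 : (fun i => φ (Pi.single i 1)) = (0 : ι → F) := by
    apply h
    intro v
    have h2 : φ (lin a (Pi.single v 1)) = 0 := by
      have := LinearMap.congr_fun hφ (Pi.single v 1)
      simpa using this
    have h3 : lin a (Pi.single v (1 : F)) = ∑ i, a i v • (Pi.single i (1 : F) : ι → F) := by
      funext j
      simp [lin, Pi.single_apply, Finset.sum_apply]
    rw [h3, map_sum] at h2
    rw [← h2]
    refine Finset.sum_congr rfl fun i _ => ?_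
    rw [map_smul, smul_eq_mul, mul_comm]
  apply LinearMap.ext
  intro y
  have h4 : y = ∑ i, y i • (Pi.single i (1 : F) : ι → F) := by
    funext j
    simp [Finset.sum_apply, Pi.single_apply]
  rw [h4, map_sum, LinearMap.zero_apply]
  refine Finset.sum_eq_zero fun i _ => ?_
  rw [map_smul]
  have := congrFun h1 i
  simp only [Pi.zero_apply] at this
  rw [this, smul_zero]

/-- number of solutions of an independent linear system -/
theorem card_lin {ι : Type*} [Fintype ι] [DecidableEq ι] (a : ι → V → F)
    (h : ∀ l : ι → F, (∀ v, ∑ i, l i * a i v = 0) → l = 0) (y : ι → F)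
    [DecidablePred fun β : V → F => ∀ i, ∑ v, a i v * β v = y i] :
    (univ.filter (fun β : V → F => ∀ i, ∑ v, a i v * β v = y i)).card *
      Fintype.card F ^ Fintype.card ι = Fintype.card F ^ Fintype.card V := by
  have h1 := card_fibre (lin (V := V) a).toAddMonoidHom (lin_surjective a h) y
  rw [Fintype.card_fun, Fintype.card_fun] at h1
  rw [← h1]
  congr 2
  ext β
  rw [mem_filter, mem_filter]
  constructor
  · rintro ⟨_, hb⟩; exact ⟨mem_univ _, funext hb⟩
  · rintro ⟨_, hb⟩; exact ⟨mem_univ _, fun i => congrFun hb i⟩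

/-- indicator weight -/
def ind (A : Finset V) (v : V) : F := if v ∈ A then 1 else 0

theorem sum_ind (A : Finset V) (β : V → F) : ∑ v, ind A v * β v = ∑ v ∈ A, β v := by
  simp [ind, Finset.sum_ite_mem]

/-- the form -/
def Phi (ω : (V → F) × (V → F)) (A : Finset V) : F := (∑ v ∈ A, ω.1 v) ^ 2 + ∑ v ∈ A, ω.2 v

/-- independence of indicator vectors -/
def Indep (F : Type*) [Field F] {ι : Type*} [Fintype ι] (A : ι → Finset V) : Prop :=
  ∀ l : ι → F, (∀ v, ∑ i, l i * ind (F := F) (A i) v = 0) → l = 0

theorem card_pairs (P : (V → F) → Prop) [DecidablePred P] (Q : (V → F) → (V → F) → Prop)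
    [∀ a, DecidablePred (Q a)] (N M : ℕ) (h : ∀ a, (univ.filter (Q a)).card * N = M) :
    (univ.filter (fun ω : (V → F) × (V → F) => P ω.1 ∧ Q ω.1 ω.2)).card * N =
      (univ.filter P).card * M := by
  classical
  have h1 : (univ.filter (fun ω : (V → F) × (V → F) => P ω.1 ∧ Q ω.1 ω.2)).card =
      ∑ a ∈ univ.filter P, (univ.filter (Q a)).card := by
    rw [← Finset.card_sigma]
    refine Finset.card_bij (fun ω _ => ⟨ω.1, ω.2⟩) ?_ ?_ ?_
    · intro ω hω
      rw [mem_filter] at hω
      rw [mem_sigma, mem_filter, mem_filter]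
      exact ⟨⟨mem_univ _, hω.2.1⟩, mem_univ _, hω.2.2⟩
    · intro ω _ ω' _ h
      obtain ⟨a, b⟩ := ω
      obtain ⟨a', b'⟩ := ω'
      simpa using h
    · rintro ⟨a, b⟩ hab
      rw [mem_sigma, mem_filter, mem_filter] at hab
      exact ⟨(a, b), by rw [mem_filter]; exact ⟨mem_univ _, hab.1.2, hab.2.2⟩, rfl⟩
  rw [h1, Finset.sum_mul, Finset.sum_congr rfl (fun a _ => h a), Finset.sum_const, smul_eq_mul]

theorem card_edges {ι : Type*} [Fintype ι] [DecidableEq ι] (A : ι → Finset V)
    (hA : Indep F A) [DecidablePred fun ω : (V → F) × (V → F) => ∀ i, Phi ω (A i) = 0] :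
    (univ.filter (fun ω : (V → F) × (V → F) => ∀ i, Phi ω (A i) = 0)).card *
      Fintype.card F ^ Fintype.card ι = Fintype.card F ^ (2 * Fintype.card V) := by
  classical
  have h1 := card_pairs (V := V) (F := F) (fun _ => True)
    (fun a b => ∀ i, ∑ v, ind (A i) v * b v = - (∑ v ∈ A i, a v) ^ 2)
    (Fintype.card F ^ Fintype.card ι) (Fintype.card F ^ Fintype.card V)
    (fun a => card_lin (fun i => ind (A i)) hA _)
  have h2 : (univ.filter (fun _ : V → F => True)).card = Fintype.card F ^ Fintype.card V := by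
    rw [Finset.filter_true, Finset.card_univ, Fintype.card_fun]
  rw [h2, ← pow_add, ← two_mul] at h1
  rw [← h1]
  congr 2
  ext ω
  rw [mem_filter, mem_filter]
  simp only [Phi, sum_ind, true_and]
  constructor
  · rintro ⟨_, hb⟩; exact ⟨mem_univ _, fun i => by linear_combination hb i⟩
  · rintro ⟨_, hb⟩; exact ⟨mem_univ _, fun i => by linear_combination hb i⟩

/-- collision of `Q ⊆ A` and `Q'` disjoint from `A`, together with the edge `A` -/
theorem card_coll (A Q Q' : Finset V) (hQ : Q ⊆ A) (hQ' : Disjoint Q' A) (hQ'n : Q'.Nonempty)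
    (hA : A.Nonempty) :
    (univ.filter (fun ω : (V → F) × (V → F) => (∑ v ∈ Q, ω.1 v = ∑ v ∈ Q', ω.1 v) ∧
      (∑ v ∈ Q, ω.2 v = ∑ v ∈ Q', ω.2 v) ∧ Phi ω A = 0)).card *
      Fintype.card F ^ 3 = Fintype.card F ^ (2 * Fintype.card V) := by
  classical
  obtain ⟨w, hw⟩ := hQ'n
  have hwA : w ∉ A := fun h => (Finset.disjoint_left.mp hQ' hw) h
  have hwQ : w ∉ Q := fun h => hwA (hQ h)
  obtain ⟨u, hu⟩ := hA
  have huQ' : u ∉ Q' := fun h => (Finset.disjoint_left.mp hQ' h) hu
  -- one condition on α
  have hα : (univ.filter (fun a : V → F => ∑ v ∈ Q, a v = ∑ v ∈ Q', a v)).card *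
      Fintype.card F = Fintype.card F ^ Fintype.card V := by
    have := card_lin (V := V) (F := F) (ι := Unit) (fun _ v => ind Q v - ind Q' v) (by
      intro l hl
      funext i
      have := hl w
      simp only [Finset.univ_unique, Finset.sum_singleton, ind, hw, hwQ, if_true, if_false] at this
      have h0 : l default = 0 := by linear_combination -this
      cases i; exact h0) (fun _ => 0)
    simp only [Fintype.card_unit, pow_one] at this
    rw [← this]
    congr 2
    ext a
    rw [mem_filter, mem_filter]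
    simp only [sub_mul, Finset.sum_sub_distrib, sum_ind, forall_const, sub_eq_zero]
  have hβ : ∀ a : V → F, (univ.filter (fun b : V → F =>
      (∑ v ∈ Q, b v = ∑ v ∈ Q', b v) ∧ (∑ v ∈ A, a v) ^ 2 + ∑ v ∈ A, b v = 0)).card *
      Fintype.card F ^ 2 = Fintype.card F ^ Fintype.card V := by
    intro a
    have := card_lin (V := V) (F := F) (ι := Fin 2)
      (fun i v => if i = 0 then ind Q v - ind Q' v else ind A v) (by
      intro l hl
      have h1 := hl w
      have h2 := hl u
      simp only [Fin.sum_univ_two, ind, hw, hwQ, hwA, hu, huQ', if_true, if_false] at h1 h2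
      have h0 : l 0 = 0 := by
        have : (1 : Fin 2) ≠ 0 := by decide
        simp only [this, if_false, mul_zero, add_zero] at h1
        linear_combination -h1
      have h10 : l 1 = 0 := by
        have : (1 : Fin 2) ≠ 0 := by decide
        simp only [this, if_false, mul_one, h0, zero_mul, zero_add] at h2
        exact h2
      funext i
      fin_cases i
      · exact h0
      · exact h10) (fun i => if i = 0 then 0 else - (∑ v ∈ A, a v) ^ 2)
    simp only [Fintype.card_fin] at this
    rw [← this]
    congr 2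
    apply Finset.ext
    intro b
    have key : (∀ i : Fin 2, ∑ v, (if i = 0 then ind Q v - ind Q' v else ind A v) * b v =
        if i = 0 then (0 : F) else -(∑ v ∈ A, a v) ^ 2) ↔
        ((∑ v ∈ Q, b v = ∑ v ∈ Q', b v) ∧ (∑ v ∈ A, a v) ^ 2 + ∑ v ∈ A, b v = 0) := by
      simp only [Fin.forall_fin_two, if_true, one_ne_zero, if_false, sub_mul,
        Finset.sum_sub_distrib, sum_ind, sub_eq_zero]
      constructor
      · rintro ⟨h1, h2⟩; exact ⟨h1, by linear_combination h2⟩
      · rintro ⟨h1, h2⟩; exact ⟨h1, by linear_combination h2⟩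
    constructor
    · intro hb
      exact Finset.mem_filter.mpr ⟨mem_univ _, key.mpr (Finset.mem_filter.mp hb).2⟩
    · intro hb
      exact Finset.mem_filter.mpr ⟨mem_univ _, key.mp (Finset.mem_filter.mp hb).2⟩
  have h1 := card_pairs (V := V) (F := F) (fun a => ∑ v ∈ Q, a v = ∑ v ∈ Q', a v)
    (fun a b => (∑ v ∈ Q, b v = ∑ v ∈ Q', b v) ∧ (∑ v ∈ A, a v) ^ 2 + ∑ v ∈ A, b v = 0)
    (Fintype.card F ^ 2) (Fintype.card F ^ Fintype.card V) hβ
  calc _ = ((univ.filter (fun ω : (V → F) × (V → F) => (∑ v ∈ Q, ω.1 v = ∑ v ∈ Q', ω.1 v) ∧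
      ((∑ v ∈ Q, ω.2 v = ∑ v ∈ Q', ω.2 v) ∧ (∑ v ∈ A, ω.1 v) ^ 2 + ∑ v ∈ A, ω.2 v = 0))).card *
      Fintype.card F ^ 2) * Fintype.card F := by
        simp only [Phi]; ring
    _ = _ := by rw [h1, mul_right_comm, hα]; ring

end Pool.Agent.helper30.UF
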